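import Pool.Agent.KK.StmtsC

/-!
# Squad KK, row ABS, part 1: lists, multisets, greedy choice
-/

set_option autoImplicit false

namespace Pool.Agent.KK.H41

variable {V : Type}

/-- the multiset of the entries -/
def ms (P : List (List V)) : Multiset V := (P.flatten : Multiset V)

theorem ms_nil : ms ([] : List (List V)) = 0 := rfl

theorem ms_cons (p : List V) (P : List (List V)) : ms (p :: P) = (p : Multiset V) + ms P := by
  unfold ms
  rw [List.flatten_cons, Multiset.coe_add]

theorem ms_append (P Q : List (List V)) : ms (P ++ Q) = ms P + ms Q := by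
  unfold ms
  rw [List.flatten_append, Multiset.coe_add]

theorem ms_flatMap {α : Type} (l : List α) (f : α → List (List V)) :
    ms (l.flatMap f) = (l.map fun a => ms (f a)).sum := by
  induction l with
  | nil => rfl
  | cons a l ih => rw [List.flatMap_cons, ms_append, ih, List.map_cons, List.sum_cons]

theorem ms_ofFn {q : ℕ} (A : Fin q → List V) : ms (List.ofFn A) = ∑ i, (A i : Multiset V) := by
  induction q with
  | zero => rw [List.ofFn_zero]; rfl
  | succ q ih => rw [List.ofFn_succ, ms_cons, ih, Fin.sum_univ_succ]

theorem split_cls {q : ℕ} (R : List V → List V → Prop) (cls : List V → Fin q)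
    (P P' : List (List V)) (h : List.Forall₂ R P P') :
    ∃ qs : Fin q → List (List V),
      (∀ i, List.Forall₂ R (P.filter fun p => cls p = i) (qs i)) ∧ ∑ i, ms (qs i) = ms P' := by
  induction h with
  | nil =>
      refine ⟨fun _ => [], fun i => ?_, ?_⟩
      · exact List.Forall₂.nil
      · rw [ms_nil]
        exact Finset.sum_eq_zero fun i _ => rfl
  | @cons a b P P' hab h ih =>
      obtain ⟨qs, h1, h2⟩ := ih
      refine ⟨fun i => if cls a = i then b :: qs i else qs i, fun i => ?_, ?_⟩
      · by_cases hi : cls a = i
        · rw [List.filter_cons_of_pos (by simpa using hi)]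
          simp only [if_pos hi]
          exact List.Forall₂.cons hab (h1 i)
        · rw [List.filter_cons_of_neg (by simpa using hi)]
          simp only [if_neg hi]
          exact h1 i
      · have h3 : ∀ i, ms (if cls a = i then b :: qs i else qs i) =
            (if cls a = i then (b : Multiset V) else 0) + ms (qs i) := by
          intro i
          by_cases hi : cls a = i
          · rw [if_pos hi, if_pos hi, ms_cons]
          · rw [if_neg hi, if_neg hi, zero_add]
        rw [ms_cons, ← h2, Finset.sum_congr rfl fun i _ => h3 i, Finset.sum_add_distrib,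
          Finset.sum_ite_eq, if_pos (Finset.mem_univ _)]

/-- greedy choice of objects with disjoint supports -/
theorem greedy [DecidableEq V] {α : Type} [Nonempty α] {q : ℕ} (vx : α → Finset V)
    (P : Fin q → α → Prop) (b : ℕ) (Z0 : Finset V)
    (h : ∀ i (Z : Finset V), Z0 ⊆ Z → Z.card ≤ Z0.card + q * b →
      ∃ x, P i x ∧ (vx x).card ≤ b ∧ Disjoint (vx x) Z) :
    ∃ x : Fin q → α, (∀ i, P i (x i) ∧ (vx (x i)).card ≤ b ∧ Disjoint (vx (x i)) Z0) ∧
      ∀ i j, i ≠ j → Disjoint (vx (x i)) (vx (x j)) := by
  classical
  have key : ∀ s : Finset (Fin q), ∃ x : Fin q → α,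
      (∀ i ∈ s, P i (x i) ∧ (vx (x i)).card ≤ b ∧ Disjoint (vx (x i)) Z0) ∧
      ∀ i ∈ s, ∀ j ∈ s, i ≠ j → Disjoint (vx (x i)) (vx (x j)) := by
    intro s
    induction s using Finset.induction_on with
    | empty =>
        exact ⟨fun _ => Classical.arbitrary α, fun i hi => absurd hi (Finset.notMem_empty _),
          fun i hi => absurd hi (Finset.notMem_empty _)⟩
    | insert a s ha ih =>
        obtain ⟨x, h1, h2⟩ := ih
        let Z : Finset V := Z0 ∪ s.biUnion fun i => vx (x i)
        have hZ : Z.card ≤ Z0.card + q * b := by
          refine (Finset.card_union_le _ _).trans (Nat.add_le_add_left ?_ _)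
          refine (Finset.card_biUnion_le_card_mul s _ b fun i hi => (h1 i hi).2.1).trans ?_
          apply Nat.mul_le_mul_right
          calc s.card ≤ (Finset.univ : Finset (Fin q)).card := Finset.card_le_univ s
            _ = q := by rw [Finset.card_univ, Fintype.card_fin]
        obtain ⟨y, hy1, hy2, hy3⟩ := h a Z Finset.subset_union_left hZ
        refine ⟨Function.update x a y, ?_, ?_⟩
        · intro i hi
          rcases Finset.mem_insert.1 hi with rfl | hi
          · rw [Function.update_self]
            exact ⟨hy1, hy2, Finset.disjoint_of_subset_right Finset.subset_union_left hy3⟩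
          · have hne : i ≠ a := fun h => ha (h ▸ hi)
            rw [Function.update_of_ne hne]
            exact h1 i hi
        · have hyd : ∀ i ∈ s, Disjoint (vx y) (vx (x i)) := fun i hi =>
            Finset.disjoint_of_subset_right ((Finset.subset_biUnion_of_mem
              (fun i => vx (x i)) hi).trans Finset.subset_union_right) hy3
          intro i hi j hj hij
          rcases Finset.mem_insert.1 hi with rfl | hi
          · rcases Finset.mem_insert.1 hj with rfl | hj
            · exact absurd rfl hij
            · rw [Function.update_self, Function.update_of_ne (Ne.symm hij)]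
              exact hyd j hj
          · have hne : i ≠ a := fun h => ha (h ▸ hi)
            by_cases hja : j = a
            · rw [hja, Function.update_self, Function.update_of_ne hne]
              exact (hyd i hi).symm
            · have hj' : j ∈ s := (Finset.mem_insert.1 hj).resolve_left hja
              rw [Function.update_of_ne hne, Function.update_of_ne hja]
              exact h2 i hi j hj' hij
  obtain ⟨x, h1, h2⟩ := key Finset.univ
  exact ⟨x, fun i => h1 i (Finset.mem_univ _), fun i j => h2 i (Finset.mem_univ _) j
    (Finset.mem_univ _)⟩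

theorem weave_ms : ∀ (ps ws : List (List V)), ws.length + 1 = ps.length →
    (weave ps ws : Multiset V) = ms ps + ms ws
  | [], ws, h => by simp at h
  | [p], ws, h => by
      have h1 : ws = [] := by
        apply List.eq_nil_of_length_eq_zero
        simpa using h
      rw [h1, ms_cons, ms_nil]
      simp [weave]
  | p :: q :: ps, [], h => by simp at h
  | p :: q :: ps, w :: ws, h => by
      have h1 : ws.length + 1 = (q :: ps).length := by simpa using h
      have h2 := weave_ms (q :: ps) ws h1
      rw [weave, ms_cons, ms_cons w, ← Multiset.coe_add, ← Multiset.coe_add, h2]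
      abel

/-- absorbing the lists one after the other -/
theorem abs_map {α : Type} [DecidableEq α] (F : Finset α) (sp : α → List (List V))
    (R : List V → List V → Prop) (GR : α → List V → Prop)
    (hG : ∀ u y, GR u y → ∃ Q, List.Forall₂ R (sp u) Q ∧ ms Q = ms (sp u) + (y : Multiset V))
    (hR : ∀ u ∈ F, List.Forall₂ R (sp u) (sp u)) (N : ℕ) :
    ∀ ys : List (List V), ys.length ≤ N →
      (∀ y ∈ ys, ∀ U : Finset α, U.card < N → ∃ u ∈ F, u ∉ U ∧ GR u y) →
      ∃ (Qm : α → List (List V)) (U : Finset α), U.card ≤ ys.length ∧ (∀ u, u ∉ U → Qm u = sp u) ∧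
        (∀ u ∈ F, List.Forall₂ R (sp u) (Qm u)) ∧
        ∑ u ∈ F, ms (Qm u) = ∑ u ∈ F, ms (sp u) + ms ys := by
  intro ys
  induction ys with
  | nil =>
      intro _ _
      exact ⟨sp, ∅, by simp, fun u _ => rfl, hR, by rw [ms_nil, add_zero]⟩
  | cons y ys ih =>
      intro hN hys
      rw [List.length_cons] at hN
      obtain ⟨Qm, U, h1, h2, h3, h4⟩ := ih (by omega) fun y hy =>
        hys y (List.mem_cons_of_mem _ hy)
      obtain ⟨u, hu, huU, hg⟩ := hys y List.mem_cons_self U (by omega)
      obtain ⟨Q, hQ1, hQ2⟩ := hG u y hg
      refine ⟨Function.update Qm u Q, insert u U, ?_, ?_, ?_, ?_⟩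
      · rw [List.length_cons]
        exact (Finset.card_insert_le _ _).trans (by omega)
      · intro v hv
        rw [Finset.mem_insert, not_or] at hv
        rw [Function.update_of_ne hv.1]
        exact h2 v hv.2
      · intro v hv
        by_cases hvu : v = u
        · rw [hvu, Function.update_self]
          exact hQ1
        · rw [Function.update_of_ne hvu]
          exact h3 v hv
      · have h5 : ∀ v, ms (Function.update Qm u Q v) =
            Function.update (fun v => ms (Qm v)) u (ms Q) v := by
          intro v
          by_cases hvu : v = u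
          · rw [hvu, Function.update_self, Function.update_self]
          · rw [Function.update_of_ne hvu, Function.update_of_ne hvu]
        rw [Finset.sum_congr rfl fun v _ => h5 v, Finset.sum_update_of_mem hu, hQ2, ms_cons]
        have h6 : ∑ v ∈ F, ms (Qm v) = ms (sp u) + ∑ v ∈ F \ {u}, ms (Qm v) := by
          rw [← h2 u huU, Finset.sdiff_singleton_eq_erase]
          exact (Finset.add_sum_erase F (fun v => ms (Qm v)) hu).symm
        rw [h6] at h4
        calc ms (sp u) + (y : Multiset V) + ∑ v ∈ F \ {u}, ms (Qm v) =
            (ms (sp u) + ∑ v ∈ F \ {u}, ms (Qm v)) + (y : Multiset V) := by abel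
          _ = _ := by rw [h4]; abel

theorem forall₂_flatMap {α : Type} (R : List V → List V → Prop) (f g : α → List (List V)) :
    ∀ l : List α, (∀ u ∈ l, List.Forall₂ R (f u) (g u)) →
      List.Forall₂ R (l.flatMap f) (l.flatMap g)
  | [], _ => List.Forall₂.nil
  | a :: l, h => by
      rw [List.flatMap_cons, List.flatMap_cons]
      exact List.rel_append (h a List.mem_cons_self)
        (forall₂_flatMap R f g l fun u hu => h u (List.mem_cons_of_mem _ hu))

end Pool.Agent.KK.H41
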