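import Pool.Agent.Helper41_KK.ABS0

/-!
# Squad KK, row ABS, part 2: the construction for a given family of gadgets
-/

set_option autoImplicit false

namespace Pool.Agent.KK.H41

theorem ms_filter {V : Type} {q : ℕ} (cls : List V → Fin q) (P : List (List V)) :
    ∑ i, ms (P.filter fun p => cls p = i) = ms P := by
  obtain ⟨qs, h1, h2⟩ := split_cls (fun a b => a = b) cls P P (List.forall₂_same.2 fun _ _ => rfl)
  rw [← h2]
  refine Finset.sum_congr rfl fun i _ => ?_
  have h3 := h1 i
  rw [List.forall₂_eq_eq_eq] at h3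
  rw [h3]

theorem length_filter {V : Type} {q : ℕ} (cls : List V → Fin q) (P : List (List V)) :
    ∑ i, (P.filter fun p => cls p = i).length = P.length := by
  induction P with
  | nil => simp
  | cons a P ih =>
      have h : ∀ i, ((a :: P).filter fun p => cls p = i).length =
          (if cls a = i then 1 else 0) + (P.filter fun p => cls p = i).length := by
        intro i
        by_cases hi : cls a = i
        · rw [List.filter_cons_of_pos (by simpa using hi), if_pos hi, List.length_cons]
          omega
        · rw [List.filter_cons_of_neg (by simpa using hi), if_neg hi, zero_add]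
      rw [Finset.sum_congr rfl fun i _ => h i, Finset.sum_add_distrib, ih, Finset.sum_ite_eq,
        if_pos (Finset.mem_univ _), List.length_cons]
      omega

theorem card_ms {V : Type} (P : List (List V)) : (ms P).card = P.flatten.length := rfl

theorem flatten_le {V : Type} {M : ℕ} : ∀ ws : List (List V), (∀ w ∈ ws, w.length ≤ M) →
    ws.flatten.length ≤ M * ws.length
  | [], _ => by simp
  | w :: ws, h => by
      rw [List.flatten_cons, List.length_append, List.length_cons, Nat.mul_succ]
      have h1 := h w List.mem_cons_self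
      have h2 := flatten_le ws fun w' hw' => h w' (List.mem_cons_of_mem _ hw')
      omega

theorem tight_short {V : Type} [Fintype V] [DecidableEq V] {H : Finset (Finset V)} {k : ℕ}
    {a : List V} (ha : a.length < k) : Tight H k a := by
  intro s hs hk
  have h1 := hs.length_le
  omega

theorem sameEnds_refl {V : Type} (r : ℕ) (p : List V) : SameEnds r p p := ⟨rfl, rfl⟩

theorem core (hGRJ : GrjStmt) (hRPL : RplStmt) (k M q : ℕ) (ls : List ℕ) (c : ℝ) (hk : 2 ≤ k)
    (hc : 0 < c) (hq : 0 < q) (V : Type) [Fintype V] [DecidableEq V] (H : Finset (Finset V))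
    (T : Fin q → Set (List V)) (hT : ∀ i, Tup k (T i)) (hJ : ∀ i, Joins H k (T i) c M)
    (hRi : ∀ i, Rich (T i) c) (W : Finset V) (F : Finset (Fin ls.sum → V))
    (hFi : ∀ u ∈ F, Function.Injective u)
    (hFd : ∀ u ∈ F, ∀ v ∈ F, u ≠ v → Disjoint (Set.range u) (Set.range v))
    (hFs : ∀ u ∈ F, ∀ p ∈ ls.splitLengths (List.ofFn u), ∃ i, Seg H k (T i) (T i) p)
    (hFW : ∀ u ∈ F, ∀ i, u i ∉ W)
    (b1 : ((W.card + F.card * ls.sum + q * (k - 1) : ℕ) : ℝ) ≤ c * Fintype.card V)
    (b2 : ((M * ((W.card + F.card * ls.sum + q * (k - 1) + q * (M * (F.card * ls.length + 1))) +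
      ((k - 1) + F.card * ls.sum) + M * (F.card * ls.length + 1)) : ℕ) : ℝ) < c * Fintype.card V)
    (N : ℕ) (hN : ∀ y : Fin k → V, Function.Injective y → ∀ U : Finset (Fin ls.sum → V),
      U.card < N → ∃ u ∈ F, u ∉ U ∧ Gad H k T ls (List.ofFn u) (List.ofFn y)) :
    ∃ A : Fin q → List V, (∀ i, Seg H k (T i) (T i) (A i)) ∧
      (List.ofFn A).flatten.Nodup ∧ (∀ i, ∀ v ∈ A i, v ∉ W) ∧
      (List.ofFn A).flatten.length ≤
        F.card * ls.sum + q * (k - 1) + M * (F.card * ls.length) ∧
      ∀ ys : List (List V), (∀ y ∈ ys, y.length = k) →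
        ((List.ofFn A).flatten ++ ys.flatten).Nodup → ys.length ≤ N →
        ∃ B : Fin q → List V, (∀ i, Path H k (B i) ∧ SameEnds (k - 1) (A i) (B i)) ∧
          (List.ofFn B).flatten.Perm ((List.ofFn A).flatten ++ ys.flatten) := by
  classical
  let sp : (Fin ls.sum → V) → List (List V) := fun u => ls.splitLengths (List.ofFn u)
  have hsp : ∀ u, (sp u).flatten = List.ofFn u := fun u =>
    List.flatten_splitLengths _ _ (by rw [List.length_ofFn])
  have hmsp : ∀ u, ms (sp u) = (List.ofFn u : Multiset V) := by
    intro u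
    unfold ms
    rw [hsp]
  let P : List (List V) := F.toList.flatMap sp
  have hPms : ms P = ∑ u ∈ F, ms (sp u) := by
    rw [ms_flatMap, Finset.sum_map_toList]
  have hmem : ∀ p ∈ P, ∃ u ∈ F, p ∈ sp u := by
    intro p hp
    obtain ⟨u, hu, hpu⟩ := List.mem_flatMap.1 hp
    exact ⟨u, Finset.mem_toList.1 hu, hpu⟩
  have hPf : P.flatten = F.toList.flatMap fun u => List.ofFn u := by
    show (F.toList.flatMap sp).flatten = _
    induction F.toList with
    | nil => rfl
    | cons a l ih => rw [List.flatMap_cons, List.flatten_append, ih, hsp, List.flatMap_cons]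
  have hPnd : P.flatten.Nodup := by
    rw [hPf, List.nodup_flatMap]
    refine ⟨fun u hu => List.nodup_ofFn.2 (hFi u (Finset.mem_toList.1 hu)), ?_⟩
    apply List.Nodup.pairwise_of_forall_ne (Finset.nodup_toList F)
    intro u hu v hv huv x hx hx'
    obtain ⟨i, rfl⟩ := (List.mem_ofFn' u x).1 hx
    exact Set.disjoint_left.1 (hFd u (Finset.mem_toList.1 hu) v (Finset.mem_toList.1 hv) huv)
      ⟨i, rfl⟩ ((List.mem_ofFn' v _).1 hx')
  have hPfl : P.flatten.length = F.card * ls.sum := by
    rw [hPf, List.length_flatMap]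
    have h1 : (F.toList.map fun u => (List.ofFn u).length) = F.toList.map fun _ => ls.sum :=
      List.map_congr_left fun u _ => List.length_ofFn
    rw [h1, List.map_const', List.sum_replicate, Finset.length_toList, smul_eq_mul]
  have hPl : P.length = F.card * ls.length := by
    show (F.toList.flatMap sp).length = _
    rw [List.length_flatMap]
    have h1 : (F.toList.map fun u => (sp u).length) = F.toList.map fun _ => ls.length :=
      List.map_congr_left fun u _ => List.length_splitLengths _ _
    rw [h1, List.map_const', List.sum_replicate, Finset.length_toList, smul_eq_mul]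
  have hPW : ∀ v ∈ P.flatten, v ∉ W := by
    intro v hv
    rw [hPf] at hv
    obtain ⟨u, hu, hvu⟩ := List.mem_flatMap.1 hv
    obtain ⟨i, rfl⟩ := (List.mem_ofFn' u v).1 hvu
    exact hFW u (Finset.mem_toList.1 hu) i
  -- the classes of the pieces
  have hcls : ∀ p : List V, ∃ i, p ∈ P → Seg H k (T i) (T i) p := by
    intro p
    by_cases hp : p ∈ P
    · obtain ⟨u, hu, hpu⟩ := hmem p hp
      obtain ⟨i, hi⟩ := hFs u hu p hpu
      exact ⟨i, fun _ => hi⟩
    · exact ⟨⟨0, hq⟩, fun h => absurd h hp⟩
  choose cls hcls using hcls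
  -- the extra tuples
  let Z0 : Finset V := W ∪ P.flatten.toFinset
  have hZ0 : Z0.card ≤ W.card + F.card * ls.sum := by
    refine (Finset.card_union_le _ _).trans (Nat.add_le_add_left ?_ _)
    rw [← hPfl]
    exact List.toFinset_card_le _
  obtain ⟨a, ha1, ha2⟩ := greedy (α := List V) (q := q) (fun x => x.toFinset)
    (fun i x => x ∈ T i) (k - 1) Z0 (by
      intro i Z _ hZ
      have h1 : (Z.card : ℝ) ≤ c * Fintype.card V := by
        refine le_trans ?_ b1
        exact_mod_cast (by omega : Z.card ≤ W.card + F.card * ls.sum + q * (k - 1))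
      obtain ⟨x, hx, hxZ⟩ := hRi i Z h1
      refine ⟨x, hx, ?_, ?_⟩
      · rw [← (hT i x hx).1]
        exact List.toFinset_card_le _
      · rw [Finset.disjoint_left]
        intro v hv
        exact hxZ v (List.mem_toFinset.1 hv))
  have haT : ∀ i, a i ∈ T i := fun i => (ha1 i).1
  have haZ : ∀ i, ∀ v ∈ a i, v ∉ W ∧ v ∉ P.flatten := by
    intro i v hv
    have h1 := Finset.disjoint_left.1 (ha1 i).2.2 (List.mem_toFinset.2 hv)
    constructor
    · exact fun h => h1 (Finset.mem_union_left _ h)
    · exact fun h => h1 (Finset.mem_union_right _ (List.mem_toFinset.2 h))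
  have haa : ∀ i j, i ≠ j → ∀ v ∈ a i, v ∉ a j := by
    intro i j hij v hv hv'
    exact Finset.disjoint_left.1 (ha2 i j hij) (List.mem_toFinset.2 hv) (List.mem_toFinset.2 hv')
  -- the segments of the class `i`
  let Pc : Fin q → List (List V) := fun i => P.filter fun p => cls p = i
  let ps : Fin q → List (List V) := fun i => a i :: Pc i
  have hPcP : ∀ i, ∀ v ∈ (Pc i).flatten, v ∈ P.flatten := by
    intro i v hv
    obtain ⟨p, hp, hvp⟩ := List.mem_flatten.1 hv
    exact List.mem_flatten.2 ⟨p, (List.mem_filter.1 hp).1, hvp⟩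
  have hPcnd : ∀ i, (Pc i).flatten.Nodup := by
    intro i
    exact hPnd.sublist (List.Sublist.flatten List.filter_sublist)
  have hPcc : ∀ i j, i ≠ j → ∀ v ∈ (Pc i).flatten, v ∉ (Pc j).flatten := by
    intro i j hij v hv hv'
    obtain ⟨p, hp, hvp⟩ := List.mem_flatten.1 hv
    obtain ⟨p', hp', hvp'⟩ := List.mem_flatten.1 hv'
    obtain ⟨hpP, hpi⟩ := List.mem_filter.1 hp
    obtain ⟨hpP', hpi'⟩ := List.mem_filter.1 hp'
    have hne : p ≠ p' := by
      intro h
      apply hij
      have h1 : cls p = i := by simpa using hpi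
      have h2 : cls p' = j := by simpa using hpi'
      rw [← h1, ← h2, h]
    have h3 := (List.nodup_flatten.1 hPnd).2
    have : Std.Symm (List.Disjoint (α := V)) := ⟨fun _ _ h => h.symm⟩
    exact (List.Pairwise.forall h3 hpP hpP' hne) hvp hvp'
  have hPcl : ∀ i, (Pc i).length ≤ F.card * ls.length := by
    intro i
    rw [← hPl]
    exact List.length_filter_le _ _
  have hPcfl : ∀ i, (Pc i).flatten.length ≤ F.card * ls.sum := by
    intro i
    rw [← hPfl]
    exact (List.Sublist.flatten List.filter_sublist).length_le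
  have hpsl : ∀ i, (ps i).length = (Pc i).length + 1 := fun i => List.length_cons
  have hpsf : ∀ i, (ps i).flatten = a i ++ (Pc i).flatten := fun i => List.flatten_cons
  have hal : ∀ i, (a i).length = k - 1 := fun i => (hT i _ (haT i)).1
  have hpsnd : ∀ i, (ps i).flatten.Nodup := by
    intro i
    rw [hpsf, List.nodup_append']
    exact ⟨(hT i _ (haT i)).2, hPcnd i, fun v hv hv' => (haZ i v hv).2 (hPcP i v hv')⟩
  have hseg : ∀ i, ∀ p ∈ ps i, Seg H k (T i) (T i) p := by
    intro i p hp
    rcases List.mem_cons.1 hp with rfl | hp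
    · refine ⟨⟨(hT i _ (haT i)).2, tight_short (by rw [hal i]; omega)⟩, (hal i).ge, ?_, ?_⟩
      · rw [List.take_of_length_le (hal i).le]
        exact haT i
      · rw [hal i, Nat.sub_self, List.drop_zero]
        exact haT i
    · obtain ⟨hpP, hpi⟩ := List.mem_filter.1 hp
      have h1 : cls p = i := by simpa using hpi
      rw [← h1]
      exact hcls p hpP
  -- the connectors
  let Z1 : Finset V := Z0 ∪ Finset.univ.biUnion fun i => (a i).toFinset
  have hZ1 : Z1.card ≤ W.card + F.card * ls.sum + q * (k - 1) := by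
    refine (Finset.card_union_le _ _).trans (Nat.add_le_add hZ0 ?_)
    refine (Finset.card_biUnion_le_card_mul _ _ (k - 1) fun i _ => (ha1 i).2.1).trans ?_
    rw [Finset.card_univ, Fintype.card_fin]
  obtain ⟨ws, hw1, hw2⟩ := greedy (α := List (List V)) (q := q) (fun x => x.flatten.toFinset)
    (fun i x => x.length + 1 = (ps i).length ∧ (∀ w ∈ x, w.length ≤ M) ∧
      (weave (ps i) x).Perm ((ps i).flatten ++ x.flatten) ∧ Seg H k (T i) (T i) (weave (ps i) x))
    (M * (F.card * ls.length + 1)) Z1 (by
      intro i Z _ hZ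
      have h1 : (M : ℝ) * (Z.card + (ps i).flatten.length + M * (ps i).length) <
          c * Fintype.card V := by
        refine lt_of_le_of_lt ?_ b2
        have h2 : (ps i).flatten.length ≤ (k - 1) + F.card * ls.sum := by
          rw [hpsf, List.length_append, hal]
          exact Nat.add_le_add_left (hPcfl i) _
        have h3 : (ps i).length ≤ F.card * ls.length + 1 := by
          rw [hpsl]
          exact Nat.add_le_add_right (hPcl i) 1
        have h4 : M * (Z.card + (ps i).flatten.length + M * (ps i).length) ≤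
            M * ((W.card + F.card * ls.sum + q * (k - 1) + q * (M * (F.card * ls.length + 1))) +
              ((k - 1) + F.card * ls.sum) + M * (F.card * ls.length + 1)) := by
          apply Nat.mul_le_mul_left
          apply Nat.add_le_add
          · apply Nat.add_le_add _ h2
            exact hZ.trans (Nat.add_le_add_right hZ1 _)
          · exact Nat.mul_le_mul_left M h3
        exact_mod_cast h4
      obtain ⟨x, hx1, hx2, hx3, -, hx5, hx6⟩ := hGRJ k M c V H (T i) hk hc (hT i) (hJ i) (ps i) Z
        (List.cons_ne_nil _ _) (hseg i) (hpsnd i) h1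
      refine ⟨x, ⟨hx1, hx2, hx5, hx6⟩, ?_, ?_⟩
      · refine (List.toFinset_card_le _).trans ((flatten_le x hx2).trans ?_)
        apply Nat.mul_le_mul_left
        have h2 := hPcl i
        have h3 := hpsl i
        omega
      · rw [Finset.disjoint_left]
        intro v hv
        obtain ⟨w, hw, hvw⟩ := List.mem_flatten.1 (List.mem_toFinset.1 hv)
        exact hx3 w hw v hvw)
  have hwZ : ∀ i, ∀ v ∈ (ws i).flatten, v ∉ W ∧ v ∉ P.flatten ∧ ∀ j, v ∉ a j := by
    intro i v hv
    have h1 := Finset.disjoint_left.1 (hw1 i).2.2 (List.mem_toFinset.2 hv)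
    refine ⟨?_, ?_, ?_⟩
    · exact fun h => h1 (Finset.mem_union_left _ (Finset.mem_union_left _ h))
    · exact fun h => h1 (Finset.mem_union_left _ (Finset.mem_union_right _
        (List.mem_toFinset.2 h)))
    · exact fun j h => h1 (Finset.mem_union_right _ (Finset.mem_biUnion.2
        ⟨j, Finset.mem_univ _, List.mem_toFinset.2 h⟩))
  have hww : ∀ i j, i ≠ j → ∀ v ∈ (ws i).flatten, v ∉ (ws j).flatten := by
    intro i j hij v hv hv'
    exact Finset.disjoint_left.1 (hw2 i j hij) (List.mem_toFinset.2 hv) (List.mem_toFinset.2 hv')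
  let A : Fin q → List V := fun i => weave (ps i) (ws i)
  have hAmem : ∀ i v, v ∈ A i ↔ v ∈ a i ∨ v ∈ (Pc i).flatten ∨ v ∈ (ws i).flatten := by
    intro i v
    rw [(hw1 i).1.2.2.1.mem_iff, hpsf, List.mem_append, List.mem_append, or_assoc]
  have hAms : ∀ i, (A i : Multiset V) = (a i : Multiset V) + ms (Pc i) + ms (ws i) := by
    intro i
    rw [← ms_cons]
    exact weave_ms (ps i) (ws i) (hw1 i).1.1
  refine ⟨A, fun i => (hw1 i).1.2.2.2, ?_, ?_, ?_, ?_⟩
  · rw [List.nodup_flatten]
    constructor
    · intro l hl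
      obtain ⟨i, rfl⟩ := (List.mem_ofFn' A l).1 hl
      exact (hw1 i).1.2.2.2.1.1
    · rw [List.pairwise_ofFn]
      intro i j hij v hv hv'
      have hne : i ≠ j := hij.ne
      rcases (hAmem i v).1 hv with h1 | h1 | h1 <;> rcases (hAmem j v).1 hv' with h2 | h2 | h2
      · exact haa i j hne v h1 h2
      · exact (haZ i v h1).2 (hPcP j v h2)
      · exact (hwZ j v h2).2.2 i h1
      · exact (haZ j v h2).2 (hPcP i v h1)
      · exact hPcc i j hne v h1 h2
      · exact (hwZ j v h2).2.1 (hPcP i v h1)
      · exact (hwZ i v h1).2.2 j h2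
      · exact (hwZ i v h1).2.1 (hPcP j v h2)
      · exact hww i j hne v h1 h2
  · intro i v hv
    rcases (hAmem i v).1 hv with h1 | h1 | h1
    · exact (haZ i v h1).1
    · exact hPW v (hPcP i v h1)
    · exact (hwZ i v h1).1
  · -- the total length
    have h1 : (List.ofFn A).flatten.length = ∑ i, ((k - 1) + (Pc i).flatten.length +
        (ws i).flatten.length) := by
      rw [← card_ms, ms_ofFn, Multiset.card_sum]
      refine Finset.sum_congr rfl fun i _ => ?_
      rw [hAms i, Multiset.card_add, Multiset.card_add]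
      show (a i).length + (Pc i).flatten.length + (ws i).flatten.length = _
      rw [hal i]
    have h2 : ∑ i, (Pc i).flatten.length = F.card * ls.sum := by
      have h3 := congrArg Multiset.card (ms_filter cls P)
      rw [Multiset.card_sum, card_ms, hPfl] at h3
      exact h3
    have h3 : ∑ i, (ws i).flatten.length ≤ M * (F.card * ls.length) := by
      calc ∑ i, (ws i).flatten.length ≤ ∑ i, M * (Pc i).length := by
            refine Finset.sum_le_sum fun i _ => ?_
            have h4 := flatten_le (ws i) (hw1 i).1.2.1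
            have h5 : (ws i).length = (Pc i).length := by
              have := (hw1 i).1.1
              have := hpsl i
              omega
            rw [h5] at h4
            exact h4
        _ = M * (F.card * ls.length) := by
            rw [← Finset.mul_sum, ← hPl]
            congr 1
            exact length_filter cls P
    rw [h1, Finset.sum_add_distrib, Finset.sum_add_distrib, h2, Finset.sum_const,
      Finset.card_univ, Fintype.card_fin, smul_eq_mul]
    omega
  · intro ys hys hnd hN'
    have hysnd : ys.flatten.Nodup := (List.nodup_append'.1 hnd).2.1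
    obtain ⟨Qm, -, -, -, hQ3, hQ4⟩ := abs_map F sp
      (fun p p' => SameEnds (k - 1) p p' ∧ Path H k p')
      (fun u y => Gad H k T ls (List.ofFn u) y)
      (by
        intro u y hg
        obtain ⟨-, -, Q, hQ1, hQ2⟩ := hg
        refine ⟨Q, hQ1, ?_⟩
        rw [hmsp u, Multiset.coe_add]
        exact Multiset.coe_eq_coe.2 hQ2)
      (by
        intro u hu
        refine List.forall₂_same.2 fun p hp => ⟨sameEnds_refl _ _, ?_⟩
        obtain ⟨i, hi⟩ := hFs u hu p hp
        exact hi.1) N ys hN' (by
        intro y hy U hU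
        have hyk := hys y hy
        have hynd : y.Nodup := (List.nodup_flatten.1 hysnd).1 y hy
        have h1 : List.ofFn (fun i : Fin k => y.get (Fin.cast hyk.symm i)) = y := by
          apply List.ext_getElem
          · rw [List.length_ofFn, hyk]
          · intro n h1 h2
            simp
        obtain ⟨u, hu, huU, hg⟩ := hN (fun i : Fin k => y.get (Fin.cast hyk.symm i))
          (fun i j hij => Fin.cast_injective _ (hynd.injective_get hij)) U hU
        rw [h1] at hg
        exact ⟨u, hu, huU, hg⟩)
    let P' : List (List V) := F.toList.flatMap Qm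
    have hP' : List.Forall₂ (fun p p' => SameEnds (k - 1) p p' ∧ Path H k p') P P' :=
      forall₂_flatMap _ sp Qm F.toList fun u hu => hQ3 u (Finset.mem_toList.1 hu)
    obtain ⟨qs, hq1, hq2⟩ := split_cls _ cls P P' hP'
    let B : Fin q → List V := fun i => weave (a i :: qs i) (ws i)
    have hlen : ∀ i, (ws i).length + 1 = (a i :: qs i).length := by
      intro i
      rw [List.length_cons, ← (hq1 i).length_eq, (hw1 i).1.1]
      exact List.length_cons
    have hperm : (List.ofFn B).flatten.Perm ((List.ofFn A).flatten ++ ys.flatten) := by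
      apply Multiset.coe_eq_coe.1
      rw [← Multiset.coe_add]
      show ms (List.ofFn B) = ms (List.ofFn A) + ms ys
      rw [ms_ofFn, ms_ofFn, Finset.sum_congr rfl fun i _ => hAms i,
        Finset.sum_congr rfl fun i _ => weave_ms (a i :: qs i) (ws i) (hlen i)]
      simp only [ms_cons, Finset.sum_add_distrib]
      rw [hq2]
      have h1 : ms P' = ms P + ms ys := by
        rw [ms_flatMap, Finset.sum_map_toList, hQ4, hPms]
      have h2 : ∑ i, ms (Pc i) = ms P := ms_filter cls P
      rw [h1, h2]
      abel
    have hBnd : (List.ofFn B).flatten.Nodup := hperm.symm.nodup hnd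
    refine ⟨B, fun i => ?_, hperm⟩
    have h2 := (hRPL k V H hk (ps i) (a i :: qs i) (ws i) (List.cons_ne_nil _ _) (by
      refine List.Forall₂.cons ⟨sameEnds_refl _ _, (hal i).ge, (hal i).ge,
        tight_short (by rw [hal i]; omega)⟩ ?_
      have h3 : ∀ p ∈ Pc i, k - 1 ≤ p.length := fun p hp =>
        (hseg i p (List.mem_cons_of_mem _ hp)).2.1
      refine List.Forall₂.imp ?_ ((List.forall₂_and_left _ _).2 ⟨h3, hq1 i⟩)
      rintro p p' ⟨hp, he, hpath⟩
      refine ⟨he, hp, ?_, hpath.2⟩
      have h4 := congrArg List.length he.1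
      rw [List.length_take, List.length_take, min_eq_left hp] at h4
      omega)).1 (hw1 i).1.2.2.2.1.2
    refine ⟨⟨?_, h2.1⟩, h2.2⟩
    exact (List.nodup_flatten.1 hBnd).1 (B i) ((List.mem_ofFn' B _).2 ⟨i, rfl⟩)

end Pool.Agent.KK.H41
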