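import Pool.Agent.Helper41_KK.ABS1

/-!
# Squad KK, row ABS, part 3: the choice of the family and of the constants
-/

set_option autoImplicit false

namespace Pool.Agent.KK.H41

theorem big (a X : ℝ) (ha : 0 < a) : ∃ n₀ : ℕ, ∀ n : ℕ, n₀ ≤ n → X < a * n := by
  obtain ⟨n₀, h0⟩ := exists_nat_gt (X / a)
  refine ⟨n₀, fun n hn => ?_⟩
  have h1 : (n₀ : ℝ) ≤ n := by exact_mod_cast hn
  have h2 : X / a < n := lt_of_lt_of_le h0 h1
  rw [div_lt_iff₀ ha] at h2
  linarith

/-- few members of a disjoint family meet a small set -/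
theorem meet_le {V : Type} [DecidableEq V] {s : ℕ} (F : Finset (Fin s → V))
    (hF : ∀ u ∈ F, ∀ v ∈ F, u ≠ v → Disjoint (Set.range u) (Set.range v)) (W : Finset V) :
    (F.filter fun u => ∃ i, u i ∈ W).card ≤ W.card := by
  classical
  rcases Nat.eq_zero_or_pos s with rfl | hs
  · have h1 : (F.filter fun u => ∃ i, u i ∈ W) = ∅ := by
      rw [Finset.filter_eq_empty_iff]
      rintro u _ ⟨i, _⟩
      exact i.elim0
    rw [h1, Finset.card_empty]
    exact Nat.zero_le _
  · apply Finset.card_le_card_of_injOn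
      (fun u => if h : ∃ i, u i ∈ W then u h.choose else u ⟨0, hs⟩)
    · intro u hu
      have h1 := (Finset.mem_filter.1 (Finset.mem_coe.1 hu)).2
      simp only [dif_pos h1]
      exact Finset.mem_coe.2 h1.choose_spec
    · intro u hu v hv huv
      have h1 := Finset.mem_filter.1 (Finset.mem_coe.1 hu)
      have h2 := Finset.mem_filter.1 (Finset.mem_coe.1 hv)
      simp only [dif_pos h1.2, dif_pos h2.2] at huv
      by_contra hne
      exact Set.disjoint_left.1 (hF u h1.1 v h2.1 hne) ⟨h1.2.choose, rfl⟩ ⟨h2.2.choose, huv.symm⟩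

theorem abs_row (hFAM : FamStmt) (hGRJ : GrjStmt) (hRPL : RplStmt) : AbsStmt := by
  intro k M q C ls c hk hc hq hls
  obtain ⟨γF, hγF, hfam⟩ := hFAM ls.sum k c hls hc
  obtain ⟨K, hKdef⟩ : ∃ K : ℝ, K = 2 * ((ls.sum : ℝ) + M * ls.length + 1) := ⟨_, rfl⟩
  have hK : 0 < K := by rw [hKdef]; positivity
  obtain ⟨a1, ha1def⟩ : ∃ a1 : ℝ, a1 = M * (2 * ls.sum + (q + 1) * M * ls.length) + ls.sum :=
    ⟨_, rfl⟩
  have ha1 : 0 ≤ a1 := by rw [ha1def]; positivity
  refine ⟨c / (16 * K), min (K * γF) (K * (c / 2) / (a1 + 1)), by positivity, by positivity, ?_⟩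
  intro γ hγ hγ0
  have hγ1 : γ / K ≤ γF := by
    rw [div_le_iff₀ hK]
    linarith [hγ0.trans (min_le_left _ _)]
  have hγ2 : γ / K * a1 ≤ c / 2 := by
    have h1 := hγ0.trans (min_le_right _ _)
    rw [le_div_iff₀ (by linarith)] at h1
    rw [div_mul_eq_mul_div, div_le_iff₀ hK]
    nlinarith
  have hγ' : 0 < γ / K := by positivity
  obtain ⟨nF, hnF⟩ := hfam (γ / K) hγ' hγ1
  obtain ⟨n1, hn1⟩ := big (c / 2) (M * (C + q * k + q * M + k + M) + C + q * k) (by positivity)
  obtain ⟨n2, hn2⟩ := big (γ / 2) (q * k) (by positivity)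
  obtain ⟨n3, hn3⟩ := big (γ * c / (16 * K)) C (by positivity)
  refine ⟨max (max nF n1) (max n2 n3), ?_⟩
  intro V _ _ H T hn hT hJ hRi hG W hW
  classical
  have hnF' := hnF V ((le_max_left _ _).trans ((le_max_left _ _).trans hn))
  have hn1' := hn1 _ ((le_max_right _ _).trans ((le_max_left _ _).trans hn))
  have hn2' := hn2 _ ((le_max_left _ _).trans ((le_max_right _ _).trans hn))
  have hn3' := hn3 _ ((le_max_right _ _).trans ((le_max_right _ _).trans hn))
  let Dy : (Fin k → V) → Finset (Fin ls.sum → V) := fun y =>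
    Finset.univ.filter fun u => Gad H k T ls (List.ofFn u) (List.ofFn y)
  have hDy : ∀ y, {u : Fin ls.sum → V | Gad H k T ls (List.ofFn u) (List.ofFn y)}.ncard =
      (Dy y).card := by
    intro y
    have h1 : {u : Fin ls.sum → V | Gad H k T ls (List.ofFn u) (List.ofFn y)} =
        ((Dy y : Finset _) : Set _) := by
      ext u
      simp [Dy]
    rw [h1, Set.ncard_coe_finset]
  obtain ⟨F0, hF0c, hF0i, hF0d, hF0D⟩ := hnF'
    (((Finset.univ : Finset (Fin k → V)).filter Function.Injective).image Dy) (by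
      have h1 : (((Finset.univ : Finset (Fin k → V)).filter Function.Injective).image Dy).card ≤
          Fintype.card V ^ k := by
        refine Finset.card_image_le.trans ((Finset.card_filter_le _ _).trans ?_)
        rw [Finset.card_univ, Fintype.card_fun, Fintype.card_fin]
      exact_mod_cast h1) (by
      intro D hD
      obtain ⟨y, hy, rfl⟩ := Finset.mem_image.1 hD
      rw [← hDy]
      exact hG y (Finset.mem_filter.1 hy).2)
  let F : Finset (Fin ls.sum → V) := F0.filter fun u => (∀ i, u i ∉ W) ∧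
    ∃ y : Fin k → V, Function.Injective y ∧ Gad H k T ls (List.ofFn u) (List.ofFn y)
  have hFsub : ∀ u ∈ F, u ∈ F0 := fun u hu => (Finset.mem_filter.1 hu).1
  have hFc : (F.card : ℝ) ≤ γ / K * Fintype.card V := by
    refine le_trans ?_ hF0c
    exact_mod_cast Finset.card_filter_le _ _
  have hWC : (W.card : ℝ) ≤ C := by exact_mod_cast hW
  have hk1 : ((k - 1 : ℕ) : ℝ) ≤ k := by exact_mod_cast Nat.sub_le k 1
  have hk0 : (0 : ℝ) ≤ ((k - 1 : ℕ) : ℝ) := Nat.cast_nonneg _
  have hqk : (q : ℝ) * ((k - 1 : ℕ) : ℝ) ≤ q * k := mul_le_mul_of_nonneg_left hk1 (Nat.cast_nonneg _)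
  have hn0 : (0 : ℝ) ≤ Fintype.card V := Nat.cast_nonneg _
  have hFa : (F.card : ℝ) * a1 ≤ c / 2 * Fintype.card V := by
    calc (F.card : ℝ) * a1 ≤ γ / K * Fintype.card V * a1 := mul_le_mul_of_nonneg_right hFc ha1
      _ = γ / K * a1 * Fintype.card V := by ring
      _ ≤ c / 2 * Fintype.card V := mul_le_mul_of_nonneg_right hγ2 hn0
  have hM0 : (0 : ℝ) ≤ M := Nat.cast_nonneg _
  have hq0 : (0 : ℝ) ≤ q := Nat.cast_nonneg _
  have hC0 : (0 : ℝ) ≤ C := Nat.cast_nonneg _
  have hkk : (0 : ℝ) ≤ k := Nat.cast_nonneg _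
  have hF00 : (0 : ℝ) ≤ F.card := Nat.cast_nonneg _
  have hs0 : (0 : ℝ) ≤ ls.sum := Nat.cast_nonneg _
  have hL0 : (0 : ℝ) ≤ ls.length := Nat.cast_nonneg _
  have hb1 : ((W.card + F.card * ls.sum + q * (k - 1) : ℕ) : ℝ) ≤ c * Fintype.card V := by
    simp only [Nat.cast_add, Nat.cast_mul, Nat.cast_one]
    have h1 : (F.card : ℝ) * ls.sum ≤ F.card * a1 := by
      apply mul_le_mul_of_nonneg_left _ hF00
      rw [ha1def]
      have : (0 : ℝ) ≤ M * (2 * ls.sum + (q + 1) * M * ls.length) := by positivity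
      linarith
    have h2 : (0 : ℝ) ≤ M * (C + q * k + q * M + k + M) := by positivity
    linarith
  have hb2 : ((M * ((W.card + F.card * ls.sum + q * (k - 1) +
      q * (M * (F.card * ls.length + 1))) + ((k - 1) + F.card * ls.sum) +
      M * (F.card * ls.length + 1)) : ℕ) : ℝ) < c * Fintype.card V := by
    simp only [Nat.cast_add, Nat.cast_mul, Nat.cast_one]
    have h1 : (M : ℝ) * (((W.card : ℝ) + F.card * ls.sum + q * ((k - 1 : ℕ) : ℝ) +
        q * (M * (F.card * ls.length + 1))) + (((k - 1 : ℕ) : ℝ) + F.card * ls.sum) +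
        M * (F.card * ls.length + 1)) =
        M * (W.card + q * ((k - 1 : ℕ) : ℝ) + q * M + ((k - 1 : ℕ) : ℝ) + M) +
        F.card * (M * (2 * ls.sum + (q + 1) * M * ls.length)) := by ring
    have h2 : (M : ℝ) * (W.card + q * ((k - 1 : ℕ) : ℝ) + q * M + ((k - 1 : ℕ) : ℝ) + M) ≤
        M * (C + q * k + q * M + k + M) := by
      apply mul_le_mul_of_nonneg_left _ hM0
      linarith
    have h3 : (F.card : ℝ) * (M * (2 * ls.sum + (q + 1) * M * ls.length)) ≤ F.card * a1 := by
      apply mul_le_mul_of_nonneg_left _ hF00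
      rw [ha1def]
      linarith
    have h4 : (0 : ℝ) ≤ q * k := by positivity
    rw [h1]
    linarith
  obtain ⟨A, hA1, hA2, hA3, hA4, hA5⟩ := core hGRJ hRPL k M q ls c hk hc hq V H T hT hJ hRi W F
    (fun u hu => hF0i u (hFsub u hu))
    (fun u hu v hv huv => hF0d u (hFsub u hu) v (hFsub v hv) huv)
    (fun u hu => by
      obtain ⟨y, -, hy⟩ := (Finset.mem_filter.1 hu).2.2
      exact hy.2.1)
    (fun u hu => (Finset.mem_filter.1 hu).2.1) hb1 hb2 ⌊c / (16 * K) * γ * Fintype.card V⌋₊ (by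
      intro y hy U hU
      have h1 := hF0D (Dy y) (Finset.mem_image.2 ⟨y, Finset.mem_filter.2 ⟨Finset.mem_univ _, hy⟩,
        rfl⟩)
      have h2 : Dy y ∩ F0 ⊆ (Dy y ∩ F) ∪ F0.filter fun u => ∃ i, u i ∈ W := by
        intro u hu
        obtain ⟨hu1, hu2⟩ := Finset.mem_inter.1 hu
        by_cases hw : ∃ i, u i ∈ W
        · exact Finset.mem_union_right _ (Finset.mem_filter.2 ⟨hu2, hw⟩)
        · refine Finset.mem_union_left _ (Finset.mem_inter.2 ⟨hu1, Finset.mem_filter.2
            ⟨hu2, fun i hi => hw ⟨i, hi⟩, y, hy, (Finset.mem_filter.1 hu1).2⟩⟩)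
      have h3 : (Dy y ∩ F0).card ≤ (Dy y ∩ F).card + C :=
        (Finset.card_le_card h2).trans ((Finset.card_union_le _ _).trans
          (Nat.add_le_add_left ((meet_le F0 hF0d W).trans hW) _))
      have h4 : ((Dy y ∩ F0).card : ℝ) ≤ (Dy y ∩ F).card + C := by exact_mod_cast h3
      have h5 : c / (16 * K) * γ * Fintype.card V ≤ (Dy y ∩ F).card := by
        have h6 : γ / K * c / 8 * (Fintype.card V : ℝ) =
            c / (16 * K) * γ * Fintype.card V + γ * c / (16 * K) * Fintype.card V := by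
          field_simp
          ring
        linarith
      have h6 : U.card < (Dy y ∩ F).card := by
        have h7 : (U.card : ℝ) < (Dy y ∩ F).card := by
          have h8 : (U.card : ℝ) < (⌊c / (16 * K) * γ * Fintype.card V⌋₊ : ℝ) := by
            exact_mod_cast hU
          have h9 : (⌊c / (16 * K) * γ * Fintype.card V⌋₊ : ℝ) ≤
              c / (16 * K) * γ * Fintype.card V := Nat.floor_le (by positivity)
          linarith
        exact_mod_cast h7
      obtain ⟨u, hu1, hu2⟩ := Finset.exists_mem_notMem_of_card_lt_card h6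
      obtain ⟨hu3, hu4⟩ := Finset.mem_inter.1 hu1
      exact ⟨u, hu4, hu2, (Finset.mem_filter.1 hu3).2⟩)
  refine ⟨A, hA1, hA2, hA3, ?_, ?_⟩
  · have h1 : ((List.ofFn A).flatten.length : ℝ) ≤
        F.card * ls.sum + q * ((k - 1 : ℕ) : ℝ) + M * (F.card * ls.length) := by
      exact_mod_cast hA4
    have h2 : (F.card : ℝ) * ls.sum + M * (F.card * ls.length) ≤ γ / 2 * Fintype.card V := by
      calc (F.card : ℝ) * ls.sum + M * (F.card * ls.length) =
            F.card * (ls.sum + M * ls.length) := by ring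
        _ ≤ F.card * (K / 2) := by
            apply mul_le_mul_of_nonneg_left _ hF00
            rw [hKdef]
            linarith
        _ ≤ γ / K * Fintype.card V * (K / 2) := mul_le_mul_of_nonneg_right hFc (by positivity)
        _ = γ / 2 * Fintype.card V := by
            field_simp
    linarith
  · intro ys hys hnd hlen
    exact hA5 ys hys hnd (Nat.le_floor hlen)

end Pool.Agent.KK.H41
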