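import Pool.Agent.KK.StmtsB2

/-!
# Squad KK, block B, row BRG: the structure theorem in the language of states
-/

set_option autoImplicit false

namespace Pool.Agent.KK.B.H41

open Function
open scoped Classical

theorem fin_min (S : Finset ℝ) (f : ℝ → ℝ) (hf : ∀ y ∈ S, 0 < f y) :
    ∃ t : ℝ, 0 < t ∧ ∀ y ∈ S, t ≤ f y := by
  induction S using Finset.induction_on with
  | empty => exact ⟨1, one_pos, fun y hy => absurd hy (Finset.notMem_empty _)⟩
  | insert a s ha ih =>
      obtain ⟨t, ht, h⟩ := ih fun y hy => hf y (Finset.mem_insert_of_mem hy)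
      refine ⟨min t (f a), lt_min ht (hf a (Finset.mem_insert_self _ _)), fun y hy => ?_⟩
      rcases Finset.mem_insert.1 hy with rfl | hy
      · exact min_le_right _ _
      · exact (min_le_left _ _).trans (h y hy)

theorem dens_mul {α : Type} [Fintype α] [Nonempty α] (P : α → Prop) [DecidablePred P] :
    dens P * (Fintype.card α : ℝ) = ((Finset.univ.filter P).card : ℝ) := by
  rw [dens_eq]
  have h : (Fintype.card α : ℝ) ≠ 0 := by exact_mod_cast Fintype.card_ne_zero
  exact div_mul_cancel₀ _ h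

theorem typ_eq {V : Type} [Fintype V] [DecidableEq V] {k : ℕ} (X : V → Prop) (f : Fin k → V) :
    xc (Finset.univ.filter X) f = typ X f := by
  unfold xc typ
  refine congrArg Finset.card ?_
  ext l
  rw [Finset.mem_filter, Finset.mem_filter, Finset.mem_filter]
  exact ⟨fun h => ⟨h.1, h.2.2⟩, fun h => ⟨h.1, Finset.mem_univ _, h.2⟩⟩

theorem td_eq {V : Type} [Fintype V] [DecidableEq V] [Nonempty V] {d : ℕ} (H : Finset (Finset V))
    (X : V → Prop) (j : ℕ) : (td H (d + 2) (Finset.univ.filter X) j : ℝ) =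
      dens (fun e : Fin (d + 2) → V => LE H e ∧ typ X e = j) *
        (Fintype.card V : ℝ) ^ (d + 2) := by
  have h1 : ((Fintype.card V : ℝ)) ^ (d + 2) = (Fintype.card (Fin (d + 2) → V) : ℝ) := by
    rw [Fintype.card_fun, Fintype.card_fin]
    push_cast
    rfl
  rw [h1, dens_mul]
  unfold td
  have h2 : {f : Fin (d + 2) → V | Finset.univ.image f ∈ H ∧ xc (Finset.univ.filter X) f = j} =
      ((Finset.univ.filter fun e : Fin (d + 2) → V => LE H e ∧ typ X e = j : Finset _) :
        Set (Fin (d + 2) → V)) := by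
    ext f
    rw [Finset.mem_coe, Finset.mem_filter]
    constructor
    · rintro ⟨h3, h4⟩
      exact ⟨Finset.mem_univ _, h3, by rw [← typ_eq]; exact h4⟩
    · rintro ⟨-, h3, h4⟩
      exact ⟨h3, by rw [typ_eq]; exact h4⟩
  rw [h2, Set.ncard_coe_finset]

theorem brg : BrgStmt := by
  intro hStr hAug hCli hClu hRun hClo d β hd hβ
  have hk : (0 : ℝ) < (d : ℝ) + 2 := by positivity
  have hk2 : (0 : ℝ) < 3 * ((d : ℝ) + 2) * 2 ^ (d + 2) := by positivity
  obtain ⟨b₀, hb₀def⟩ : ∃ b₀ : ℝ, b₀ = β / (3 * ((d : ℝ) + 2) * 2 ^ (d + 2)) := ⟨_, rfl⟩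
  have hb₀ : 0 < b₀ := by rw [hb₀def]; positivity
  have hb₀β : 3 * ((d : ℝ) + 2) * 2 ^ (d + 2) * b₀ ≤ β := by
    rw [hb₀def, mul_div_cancel₀ _ hk2.ne']
  obtain ⟨h, hh, hG⟩ := hStr (d + 2) (by omega) (fun _ => b₀) (fun _ _ => hb₀)
  refine ⟨fun x => min (h (2 * x) / 4) x, fun x hx => lt_min (by
    have := hh (2 * x) (by linarith)
    linarith) hx, ?_⟩
  intro g hg
  have hd23 : (0 : ℝ) < ((d : ℝ) + 2) * ((d : ℝ) + 3) := by positivity
  obtain ⟨g', hg'def⟩ : ∃ g' : ℝ → ℝ, g' = fun y => min (1 / 8) (min (g (y / 2))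
    (h y / (4 * (((d : ℝ) + 2) * ((d : ℝ) + 3))))) := ⟨_, rfl⟩
  have hg' : ∀ x, 0 < x → 0 < g' x := by
    intro x hx
    rw [hg'def]
    have h1 := hg (x / 2) (by linarith)
    have h2 := hh x hx
    exact lt_min (by norm_num) (lt_min h1 (by positivity))
  have hg1 : ∀ y, g' y ≤ 1 / 8 := fun y => by
    rw [hg'def]
    exact min_le_left _ _
  have hg2 : ∀ y, g' y ≤ g (y / 2) := fun y => by
    rw [hg'def]
    exact (min_le_right _ _).trans (min_le_left _ _)
  have hg3 : ∀ y, ((d : ℝ) + 2) * ((d : ℝ) + 3) * g' y ≤ h y / 4 := fun y => by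
    have h1 : g' y ≤ h y / (4 * (((d : ℝ) + 2) * ((d : ℝ) + 3))) := by
      rw [hg'def]
      exact (min_le_right _ _).trans (min_le_right _ _)
    calc ((d : ℝ) + 2) * ((d : ℝ) + 3) * g' y ≤
          ((d : ℝ) + 2) * ((d : ℝ) + 3) * (h y / (4 * (((d : ℝ) + 2) * ((d : ℝ) + 3)))) :=
          mul_le_mul_of_nonneg_left h1 hd23.le
      _ = h y / 4 := by field_simp
  obtain ⟨c0, S₀, hc0, hS₀, H0⟩ := hG g' hg' (β / ((d : ℝ) + 2)) (by positivity)
  obtain ⟨t1, ht1, ht1'⟩ := fin_min S₀ (fun y => min (h y / 4) (y / 2)) (fun y hy => by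
    have h1 := (hS₀ y hy).1
    have h2 := hh y h1
    exact lt_min (by linarith) (by linarith))
  obtain ⟨t, htdef⟩ : ∃ t : ℝ, t = min t1 (c0 / 2) := ⟨_, rfl⟩
  have ht : 0 < t := by rw [htdef]; exact lt_min ht1 (by linarith)
  have htc : t ≤ c0 / 2 := by rw [htdef]; exact min_le_right _ _
  have htt : t ≤ t1 := by rw [htdef]; exact min_le_left _ _
  obtain ⟨n₀, hn₀⟩ := exists_nat_gt (((d : ℝ) + 2) ^ 2 / t)
  refine ⟨insert (c0 / 2) (S₀.image fun y => y / 2), n₀ + 1, ?_, ?_⟩
  · intro x hx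
    rcases Finset.mem_insert.1 hx with rfl | hx
    · linarith
    · obtain ⟨y, hy, rfl⟩ := Finset.mem_image.1 hx
      have := (hS₀ y hy).1
      linarith
  intro V _ _ H hn hU hD
  have hcard : 0 < Fintype.card V := by omega
  have : Nonempty V := Fintype.card_pos_iff.1 hcard
  have hcard' : (0 : ℝ) < Fintype.card V := by exact_mod_cast hcard
  have hsmall : ((d : ℝ) + 2) ^ 2 / (Fintype.card V : ℝ) ≤ t := by
    rw [div_le_iff₀ hcard']
    rw [div_lt_iff₀ ht] at hn₀
    have h1 : (n₀ : ℝ) ≤ Fintype.card V := by exact_mod_cast (by omega : n₀ ≤ Fintype.card V)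
    nlinarith
  obtain ⟨hsy, hde, hau⟩ := hAug d V H hU hD
  rcases H0 V (augE H) hsy hde with h1 | ⟨X, y, F, hy, hX, hF1, hF2, hF3, hF4, hF5, -, -, hF6⟩
  · refine ⟨c0 / 2, Finset.mem_insert_self _ _, Or.inl ?_⟩
    refine hClu d V H c0 (β / ((d : ℝ) + 2)) β _ hU hD ?_ ?_ ?_ h1
    · have := hh (2 * (c0 / 2)) (by linarith)
      exact lt_min (by linarith) (by linarith)
    · rw [mul_div_cancel₀ _ hk.ne']
    · have := min_le_right (h (2 * (c0 / 2)) / 4) (c0 / 2)
      linarith
  · refine ⟨y / 2, Finset.mem_insert_of_mem (Finset.mem_image.2 ⟨y, hy, rfl⟩), Or.inr ?_⟩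
    have hy0 := (hS₀ y hy).1
    have hty := ht1' y hy
    have hty1 : t ≤ h y / 4 := htt.trans (hty.trans (min_le_left _ _))
    have hty2 : t ≤ y / 2 := htt.trans (hty.trans (min_le_right _ _))
    obtain ⟨q, a, b, hq, ha0, hab, hgap, hb1, hb2, hmiss, hpres⟩ := hRun (d + 2) F (by omega) hF1
      hF3 hF2
    have hpow : (0 : ℝ) ≤ (Fintype.card V : ℝ) ^ (d + 2) := by positivity
    have hXc : (((Finset.univ.filter X).card : ℕ) : ℝ) = dens X * Fintype.card V :=
      (dens_mul X).symm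
    have hStruc : Struc H d (Finset.univ.filter X) q a b (y / 2) (g' y) := by
      refine ⟨hq, ha0, hab, hgap, hb1, hb2, ?_, ?_, ?_⟩
      · rw [hXc]
        have h2 : dens X * (Fintype.card V : ℝ) - Fintype.card V / 2 =
            (dens X - 1 / 2) * Fintype.card V := by ring
        rw [h2, abs_mul, abs_of_pos hcard']
        exact mul_le_mul_of_nonneg_right hX hcard'.le
      · intro j hj hj'
        have h2 := hF4 j (hmiss j hj hj')
        rw [td_eq]
        apply mul_le_mul_of_nonneg_right _ hpow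
        refine le_trans (dens_mono fun e he => ?_) h2
        exact ⟨fun _ => he.1, he.2⟩
      · intro i hi j hj hj'
        have h2 := (hpres i hi).2 j hj hj'
        have h3 := hF5 j (by
          have := (hpres i hi).1
          omega) h2
        rw [td_eq]
        apply mul_le_mul_of_nonneg_right _ hpow
        have h4 := hau (fun e => typ X e = j)
        unfold tden at h3
        linarith
    refine ⟨Finset.univ.filter X, q, a, b, ?_, ?_⟩
    · refine ⟨hStruc.two_le, hStruc.first, hStruc.le, hStruc.gap, hStruc.last1, hStruc.last2,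
        hStruc.bal.trans (mul_le_mul_of_nonneg_right (hg2 y) hcard'.le), ?_, hStruc.pres⟩
      intro j hj hj'
      exact (hStruc.miss j hj hj').trans (mul_le_mul_of_nonneg_right (hg2 y) hpow)
    · intro i hi
      have hXX : (fun v => v ∈ Finset.univ.filter X) = X := by
        funext v
        rw [Finset.mem_filter]
        exact propext ⟨fun h => h.2, fun h => ⟨Finset.mem_univ _, h⟩⟩
      have hcl := hClo d V H (Finset.univ.filter X) q a b (y / 2) (g' y) hU (hg' y hy0).le
        hStruc i hi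
      refine hCli d V H (Finset.univ.filter X) F (a i) (b i) (h y) b₀ β _
        (((d : ℝ) + 2) * ((d : ℝ) + 3) * g' y) hU hD ?_ (hab i hi) (hpres i hi).1
        (hpres i hi).2 hb₀.le ?_ hb₀β ?_ ?_ ?_
      · rw [hXX]
        exact hX.trans (hg1 y)
      · have := hh (2 * (y / 2)) (by linarith)
        exact lt_min (by linarith) (by linarith)
      · have h2 := min_le_left (h (2 * (y / 2)) / 4) (y / 2)
        have h3 : (2 : ℝ) * (y / 2) = y := by ring
        have h4 := hg3 y
        have h5 := hh y hy0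
        rw [h3] at h2
        show min (h (2 * (y / 2)) / 4) (y / 2) + ((d : ℝ) + 2) * ((d : ℝ) + 3) * g' y +
          ((d : ℝ) + 2) ^ 2 / (Fintype.card V : ℝ) ≤ h y
        rw [h3]
        linarith
      · exact hcl.1
      · rw [hXX]
        exact hF6

end Pool.Agent.KK.B.H41
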