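import Pool.Agent.KK.StmtsB

/-!
# Squad KK, block B, row CHN: all typical split planes have the same partition
-/

set_option autoImplicit false

namespace Pool.Agent.KK.B.H41

open Function
open scoped Classical

variable {k : ℕ} {V : Type} [Fintype V] [Nonempty V]

theorem nsp_at (hNsp : NspStmt) {E : (Fin k → V) → Prop} {D : Fin k → (Fin k → V) → Prop}
    {β : ℝ} {i0 i1 : Fin k} {a : Fin k → V} (hβ : 0 < β) (hβ' : β ≤ 1 / 16) (hE : Symm E)
    (hdeg : Deg E) (h01 : i0 ≠ i1) (hG : G0 E D β a) (hSS : SS D i0 i1 a) :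
    |dens (nb E a i0) - 1 / 2| ≤ 12 * β ∧ ∀ p, G0 E D β (update a i1 p) →
      pm (22 * β) (nb E a i0) (nb E (update a i1 p) i0) := by
  obtain ⟨σ, hσ⟩ := hSS
  have hil : σ.symm i0 ≠ σ.symm i1 := fun h => h01 (σ.symm.injective h)
  have hn : ∀ c : Fin k → V, nb E (c ∘ σ) (σ.symm i0) = nb E c i0 := by
    intro c
    rw [nb_perm hE, Equiv.apply_symm_apply]
  have h1 := (G0_perm E D β σ a).2 hG
  have h2 := G0_self h1 hil
  have h3 := hNsp k V E D β (a ∘ σ) (σ.symm i0) (σ.symm i1) hβ hβ' hE hdeg hil h2.1 h2.2.1 hσ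
  rw [hn] at h3
  refine ⟨h3.2, fun p hp => ?_⟩
  have h4 := (G0_perm E D β σ (update a i1 p)).2 hp
  have h5 := G0_self h4 hil
  have h6 : update a i1 p ∘ σ = update (a ∘ σ) (σ.symm i1) p := by
    rw [update_comp_perm, Equiv.apply_symm_apply]
  have h7 : ∀ p', update (update a i1 p ∘ σ) (σ.symm i1) p' = update (a ∘ σ) (σ.symm i1) p' := by
    intro p'
    rw [h6, update_idem]
  have h8 : Sp D (update a i1 p ∘ σ) (σ.symm i0) (σ.symm i1) := by
    unfold Sp at hσ ⊢
    simp only [h7]
    exact hσ
  have h9 := hNsp k V E D β (update a i1 p ∘ σ) (σ.symm i0) (σ.symm i1) hβ hβ' hE hdeg hil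
    h5.1 h5.2.1 h8
  rw [hn] at h9
  simp only [h7] at h9
  exact pm_mono (by linarith) (pm_trans h3.1 (pm_symm h9.1))

omit [Nonempty V] in
theorem near_of {κ : ℝ} {A A' Z Z' : V → Prop} (hZ : Z = A ∨ Z = fun v => ¬ A v)
    (hZ' : Z' = A' ∨ Z' = fun v => ¬ A' v) (h : near κ Z (fun v => ¬ Z' v)) : pm κ A A' := by
  rcases hZ with rfl | rfl <;> rcases hZ' with rfl | rfl
  · exact Or.inr h
  · left
    unfold near at h ⊢
    refine (dens_mono fun v hv => ?_).trans h
    tauto
  · left
    unfold near at h ⊢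
    refine (dens_mono fun v hv => ?_).trans h
    tauto
  · right
    unfold near at h ⊢
    refine (dens_mono fun v hv => ?_).trans h
    tauto

theorem half_of {A Z : V → Prop} {x : ℝ} (hZ : Z = A ∨ Z = fun v => ¬ A v)
    (h : |dens A - 1 / 2| ≤ x) : 1 / 2 - x ≤ dens Z := by
  rw [abs_le] at h
  rcases hZ with rfl | rfl
  · linarith
  · rw [dens_not]
    linarith

/-- the case of equal tuples outside the plane -/
theorem base (hNsp : NspStmt) {E : (Fin k → V) → Prop} {D D' : Fin k → (Fin k → V) → Prop}
    {β δ : ℝ} {i0 i1 : Fin k} {a a' : Fin k → V} (hβ : 0 < β) (hβ' : β ≤ 1 / 16)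
    (hδ : δ ≤ 1 / 32) (hE : Symm E) (hdeg : Deg E) (h01 : i0 ≠ i1)
    (hl : lev δ (G0 E D β) 1 a) (hl' : lev δ (G0 E D' β) 1 a') (hS : SS D i0 i1 a)
    (hS' : SS D' i0 i1 a') (h : ∀ x, x ≠ i0 → x ≠ i1 → a x = a' x) :
    pm (44 * β) (nb E a i0) (nb E a' i0) := by
  obtain ⟨p, hp⟩ : ∃ p, G0 E D β (update a i1 p) ∧ G0 E D' β (update a' i1 p) := by
    by_contra hc
    push Not at hc
    have h1 : dens (fun _ : V => True) ≤ δ + δ := by
      refine (dens_mono (Q := fun p => ¬ G0 E D β (update a i1 p) ∨
        ¬ G0 E D' β (update a' i1 p)) fun p _ => ?_).trans ((dens_or_le _ _).trans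
          (add_le_add (hl.2 i1) (hl'.2 i1)))
      by_cases h2 : G0 E D β (update a i1 p)
      · exact Or.inr (hc p h2)
      · exact Or.inl h2
    rw [dens_true] at h1
    linarith
  have h1 := (nsp_at hNsp hβ hβ' hE hdeg h01 hl.1 hS).2 p hp.1
  have h2 := (nsp_at hNsp hβ hβ' hE hdeg h01 hl'.1 hS').2 p hp.2
  have h3 : nb E (update a i1 p) i0 = nb E (update a' i1 p) i0 := by
    funext q
    unfold nb
    have h4 : update (update a i1 p) i0 q = update (update a' i1 p) i0 q := by
      funext x
      by_cases hx : x = i0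
      · rw [hx, update_self, update_self]
      · rw [update_of_ne hx, update_of_ne hx]
        by_cases hx1 : x = i1
        · rw [hx1, update_self, update_self]
        · rw [update_of_ne hx1, update_of_ne hx1, h x hx hx1]
    rw [h4]
  rw [h3] at h1
  exact pm_mono (by linarith) (pm_trans h1 (pm_symm h2))

theorem b_chn (hNsp : NspStmt) (hExc : ExcStmt) : ChnStmt := by
  intro k V _ _ E D D' β δ θ i0 i1 s
  induction s with
  | zero =>
      intro M a a' hβ hβ' hθ hθ' hδ hδ' hβθ hE hdeg hD hD' h01 hM0 hM1 hM hl hl' hS hS' hag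
      have hM2 : M = ∅ := Finset.card_eq_zero.1 (Nat.le_zero.1 hM)
      have h1 := base hNsp hβ hβ' (by linarith) hE hdeg h01 hl hl' hS hS' (fun x h0 h1 =>
        hag x (by rw [hM2]; exact Finset.notMem_empty x) h0 h1)
      refine pm_mono ?_ h1
      push_cast
      linarith
  | succ s ih =>
      intro M a a' hβ hβ' hθ hθ' hδ hδ' hβθ hE hdeg hD hD' h01 hM0 hM1 hM hl hl' hS hS' hag
      have hs0 : (0 : ℝ) ≤ s := Nat.cast_nonneg s
      have hsβ : 0 ≤ (s : ℝ) * β := mul_nonneg hs0 hβ.le
      have hl1 : lev δ (G0 E D β) 1 a := lev_le (by omega) hl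
      have hl1' : lev δ (G0 E D' β) 1 a' := lev_le (by omega) hl'
      rcases M.eq_empty_or_nonempty with hM2 | ⟨m, hm⟩
      · have h1 := base hNsp hβ hβ' (by linarith) hE hdeg h01 hl1 hl1' hS hS' (fun x h0 h1 =>
          hag x (by rw [hM2]; exact Finset.notMem_empty x) h0 h1)
        refine pm_mono ?_ h1
        push_cast
        nlinarith
      · have hm0 : m ≠ i0 := fun h => hM0 (h ▸ hm)
        have hm1 : m ≠ i1 := fun h => hM1 (h ▸ hm)
        obtain ⟨Z, hZ, hZd⟩ := hExc k V E D β δ θ a i0 i1 m hβ hβ' hθ hθ' hδ hδ' hβθ hE hdeg hD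
          h01 hm0 hm1 hl1 hS
        obtain ⟨Z', hZ', hZd'⟩ := hExc k V E D' β δ θ a' i0 i1 m hβ hβ' hθ hθ' hδ hδ' hβθ hE hdeg
          hD' h01 hm0 hm1 hl1' hS'
        by_cases hbig : 5 * θ < dens (fun z => Z z ∧ Z' z)
        · -- a common continuation
          obtain ⟨w, hw⟩ : ∃ w, (Z w ∧ Z' w) ∧
              (SS D i0 i1 (update a m w) ∧
                pm (44 * β) (nb E (update a m w) i0) (nb E a i0)) ∧
              (SS D' i0 i1 (update a' m w) ∧
                pm (44 * β) (nb E (update a' m w) i0) (nb E a' i0)) ∧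
              lev δ (G0 E D β) (s + 1) (update a m w) ∧
              lev δ (G0 E D' β) (s + 1) (update a' m w) := by
            by_contra hc
            push Not at hc
            have h1 : dens (fun z => Z z ∧ Z' z) ≤ (2 * θ + 2 * θ) + (δ + δ) := by
              refine (dens_mono (Q := fun z =>
                ((Z z ∧ ¬ (SS D i0 i1 (update a m z) ∧
                  pm (44 * β) (nb E (update a m z) i0) (nb E a i0))) ∨
                (Z' z ∧ ¬ (SS D' i0 i1 (update a' m z) ∧
                  pm (44 * β) (nb E (update a' m z) i0) (nb E a' i0)))) ∨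
                (¬ lev δ (G0 E D β) (s + 1) (update a m z) ∨
                  ¬ lev δ (G0 E D' β) (s + 1) (update a' m z))) fun z hz => ?_).trans
                ((dens_or_le _ _).trans (add_le_add ((dens_or_le _ _).trans
                  (add_le_add hZd hZd')) ((dens_or_le _ _).trans
                  (add_le_add (hl.2 m) (hl'.2 m)))))
              by_cases e1 : SS D i0 i1 (update a m z) ∧
                  pm (44 * β) (nb E (update a m z) i0) (nb E a i0)
              · by_cases e2 : SS D' i0 i1 (update a' m z) ∧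
                    pm (44 * β) (nb E (update a' m z) i0) (nb E a' i0)
                · by_cases e3 : lev δ (G0 E D β) (s + 1) (update a m z)
                  · exact Or.inr (Or.inr (hc z hz e1 e2 e3))
                  · exact Or.inr (Or.inl e3)
                · exact Or.inl (Or.inr ⟨hz.2, e2⟩)
              · exact Or.inl (Or.inl ⟨hz.1, e1⟩)
            linarith
          obtain ⟨-, ⟨e1, e2⟩, ⟨e3, e4⟩, e5, e6⟩ := hw
          have h2 := ih (M.erase m) (update a m w) (update a' m w) hβ hβ' hθ hθ' hδ hδ' hβθ hE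
            hdeg hD hD' h01 (fun h => hM0 (Finset.mem_of_mem_erase h))
            (fun h => hM1 (Finset.mem_of_mem_erase h)) (by
              rw [Finset.card_erase_of_mem hm]
              omega) e5 e6 e1 e3 (by
              intro x hx hx0 hx1
              by_cases hxm : x = m
              · rw [hxm, update_self, update_self]
              · rw [update_of_ne hxm, update_of_ne hxm]
                exact hag x (fun h => hx (Finset.mem_erase.2 ⟨hxm, h⟩)) hx0 hx1)
          refine pm_mono ?_ (pm_trans (pm_trans (pm_symm e2) h2) e4)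
          push_cast
          linarith
        · -- the opposite sides
          have hA := (nsp_at hNsp hβ hβ' hE hdeg h01 hl1.1 hS).1
          have hA' := (nsp_at hNsp hβ hβ' hE hdeg h01 hl1'.1 hS').1
          have hz1 := half_of hZ hA
          have hz2 := half_of hZ' hA'
          have h1 : dens (fun z => ¬ (Z z ↔ ¬ Z' z)) ≤ 12 * θ := by
            have h2 : dens (fun z => ¬ (Z z ↔ ¬ Z' z)) ≤
                dens (fun z => Z z ∧ Z' z) + dens (fun z => ¬ Z z ∧ ¬ Z' z) := by
              refine (dens_mono (Q := fun z => (Z z ∧ Z' z) ∨ (¬ Z z ∧ ¬ Z' z)) fun z hz => ?_).trans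
                (dens_or_le _ _)
              tauto
            have h3 := dens_split (fun z => ¬ Z z) Z'
            have h4 := dens_split Z' Z
            have h5 : dens (fun z => ¬ Z z ∧ Z' z) = dens (fun z => Z' z ∧ ¬ Z z) :=
              dens_congr fun z => and_comm
            have h6 : dens (fun z => Z' z ∧ Z z) = dens (fun z => Z z ∧ Z' z) :=
              dens_congr fun z => and_comm
            rw [dens_not, h5] at h3
            rw [h6] at h4
            have h7 : 24 * β ≤ 2 * θ := by nlinarith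
            linarith
          have h2 := near_of hZ hZ' h1
          refine pm_mono ?_ h2
          push_cast
          nlinarith

end Pool.Agent.KK.B.H41
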