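import Pool.Agent.KK.StmtsD

/-!
# Squad KK, row CLO: the classes of the runs are closed
-/

set_option autoImplicit false

namespace Pool.Agent.KK.H41

/-- the runs are increasing -/
theorem runs {V : Type} [Fintype V] [DecidableEq V] {H : Finset (Finset V)} {d : ℕ} {X : Finset V}
    {q : ℕ} {a b : ℕ → ℕ} {μ γ : ℝ} (h : Struc H d X q a b μ γ) :
    ∀ i' i, i < i' → i' < q → b i + 2 ≤ a i'
  | 0, i, hi, _ => absurd hi (Nat.not_lt_zero _)
  | m + 1, i, hi, hm => by
      have h1 := h.gap m hm
      rcases Nat.lt_succ_iff_lt_or_eq.1 hi with h2 | h2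
      · have h3 := runs h m i h2 (by omega)
        have h4 := h.le m (by omega)
        omega
      · rw [h2, h1]

theorem b_le {V : Type} [Fintype V] [DecidableEq V] {H : Finset (Finset V)} {d : ℕ} {X : Finset V}
    {q : ℕ} {a b : ℕ → ℕ} {μ γ : ℝ} (h : Struc H d X q a b μ γ) {i : ℕ} (hi : i < q) :
    b i ≤ d + 2 := by
  have h0 := h.last2
  rcases Nat.lt_or_ge i (q - 1) with h1 | h1
  · have h2 := runs h (q - 1) i h1 (by omega)
    have h3 := h.le (q - 1) (by omega)
    omega
  · have h2 : i = q - 1 := by omega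
    rw [h2]
    exact h0

theorem missing {V : Type} [Fintype V] [DecidableEq V] {H : Finset (Finset V)} {d : ℕ}
    {X : Finset V} {q : ℕ} {a b : ℕ → ℕ} {μ γ : ℝ} (h : Struc H d X q a b μ γ) {i : ℕ} (hi : i < q)
    {j : ℕ} (hj : j + 1 = a i ∨ j = b i + 1) : ∀ i' < q, ¬ (a i' ≤ j ∧ j ≤ b i') := by
  intro i' hi'
  have h0 := h.le i hi
  rcases lt_trichotomy i' i with h1 | h1 | h1
  · have h2 := runs h i i' h1 hi
    omega
  · rw [h1]
    omega
  · have h2 := runs h i' i h1 hi'
    omega

/-- number of canonical positions -/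
theorem card_can (d m : ℕ) (hm : m ≤ d + 2) (τ : ZMod (d + 2)) :
    (Finset.univ.filter fun l : Fin (d + 2) => (τ + ((l : ℕ) : ZMod (d + 2))).val < m).card =
      m := by
  let g : Fin (d + 2) → Fin (d + 2) := fun l =>
    ⟨(τ + ((l : ℕ) : ZMod (d + 2))).val, ZMod.val_lt _⟩
  have hg : Function.Injective g := by
    intro l l' h
    have h1 : (τ + ((l : ℕ) : ZMod (d + 2))).val = (τ + ((l' : ℕ) : ZMod (d + 2))).val :=
      congrArg Fin.val h
    have h2 := ZMod.val_injective _ h1
    have h3 := add_left_cancel h2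
    have h4 := congrArg ZMod.val h3
    rw [ZMod.val_natCast_of_lt l.isLt, ZMod.val_natCast_of_lt l'.isLt] at h4
    exact Fin.ext h4
  have hb : Function.Bijective g := ⟨hg, Finite.surjective_of_injective hg⟩
  have h1 : (Finset.univ.filter fun l : Fin (d + 2) =>
      (τ + ((l : ℕ) : ZMod (d + 2))).val < m).card =
      (Finset.univ.filter fun x : Fin (d + 2) => (x : ℕ) < m).card := by
    apply Finset.card_bij (fun l _ => g l)
    · intro l hl
      exact Finset.mem_filter.2 ⟨Finset.mem_univ _, (Finset.mem_filter.1 hl).2⟩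
    · intro l _ l' _ h
      exact hg h
    · intro x hx
      obtain ⟨l, rfl⟩ := hb.2 x
      exact ⟨l, Finset.mem_filter.2 ⟨Finset.mem_univ _, (Finset.mem_filter.1 hx).2⟩, rfl⟩
  rw [h1]
  have h2 : (Finset.univ.filter fun x : Fin (d + 2) => (x : ℕ) < m).card =
      (Finset.range m).card := by
    apply Finset.card_bij (fun (x : Fin (d + 2)) _ => (x : ℕ))
    · intro x hx
      exact Finset.mem_range.2 (Finset.mem_filter.1 hx).2
    · intro x _ x' _ h
      exact Fin.ext h
    · intro x hx
      rw [Finset.mem_range] at hx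
      exact ⟨⟨x, by omega⟩, Finset.mem_filter.2 ⟨Finset.mem_univ _, hx⟩, rfl⟩
  rw [h2, Finset.card_range]

/-- one wrong letter changes the type by one -/
theorem one_wrong {n : ℕ} (P Q : Fin n → Prop) [DecidablePred P] [DecidablePred Q] (l₀ : Fin n)
    (h0 : ¬ (P l₀ ↔ Q l₀)) (h : ∀ l, l ≠ l₀ → (P l ↔ Q l)) :
    (Finset.univ.filter P).card + 1 = (Finset.univ.filter Q).card ∨
      (Finset.univ.filter P).card = (Finset.univ.filter Q).card + 1 := by
  by_cases hP : P l₀
  · right
    have hQ : ¬ Q l₀ := fun hQ => h0 ⟨fun _ => hQ, fun _ => hP⟩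
    have h1 : Finset.univ.filter P = insert l₀ (Finset.univ.filter Q) := by
      ext l
      rw [Finset.mem_insert, Finset.mem_filter, Finset.mem_filter]
      by_cases hl : l = l₀
      · rw [hl]
        exact ⟨fun _ => Or.inl rfl, fun _ => ⟨Finset.mem_univ _, hP⟩⟩
      · rw [h l hl]
        exact ⟨Or.inr, fun h2 => h2.resolve_left hl⟩
    rw [h1, Finset.card_insert_of_notMem]
    rw [Finset.mem_filter]
    exact fun h2 => hQ h2.2
  · left
    have hQ : Q l₀ := by
      by_contra hQ
      exact h0 ⟨fun h1 => absurd h1 hP, fun h1 => absurd h1 hQ⟩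
    have h1 : Finset.univ.filter Q = insert l₀ (Finset.univ.filter P) := by
      ext l
      rw [Finset.mem_insert, Finset.mem_filter, Finset.mem_filter]
      by_cases hl : l = l₀
      · rw [hl]
        exact ⟨fun _ => Or.inl rfl, fun _ => ⟨Finset.mem_univ _, hQ⟩⟩
      · rw [h l hl]
        exact ⟨Or.inr, fun h2 => h2.resolve_left hl⟩
    rw [h1, Finset.card_insert_of_notMem]
    rw [Finset.mem_filter]
    exact fun h2 => hP h2.2

theorem xc_init {V : Type} [DecidableEq V] (X : Finset V) {m : ℕ} (f : Fin (m + 1) → V) :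
    xc X (fun i => f (Fin.castSucc i)) ≤ xc X f ∧ xc X f ≤ xc X (fun i => f (Fin.castSucc i)) + 1 := by
  unfold xc
  rw [Finset.card_filter, Finset.card_filter, Fin.sum_univ_castSucc]
  beta_reduce
  split_ifs <;> omega

theorem xc_tail {V : Type} [DecidableEq V] (X : Finset V) {m : ℕ} (f : Fin (m + 1) → V) :
    xc X (fun i => f (Fin.succ i)) ≤ xc X f ∧ xc X f ≤ xc X (fun i => f (Fin.succ i)) + 1 := by
  unfold xc
  rw [Finset.card_filter, Finset.card_filter, Fin.sum_univ_succ]
  beta_reduce
  split_ifs <;> omega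

/-- the type of an edge leading out of the class or into it -/
theorem type_of {V : Type} [DecidableEq V] (X : Finset V) (d a b : ℕ) (hab : a ≤ b)
    (hb : b ≤ d + 2) (f : Fin (d + 2) → V) (τ : ZMod (d + 2))
    (h : ¬ (((fun i : Fin (d + 1) => f (Fin.castSucc i)), τ) ∈ cls X d a b ↔
      ((fun i : Fin (d + 1) => f (Fin.succ i)), τ + 1) ∈ cls X d a b)) :
    xc X f + 1 = a ∨ xc X f = b + 1 := by
  classical
  by_cases hE : a = b
  · unfold cls at h
    rw [if_pos hE] at h
    have hc1 : (((fun i : Fin (d + 1) => f (Fin.castSucc i)), τ) ∈ can X d a ↔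
        ∀ l : Fin (d + 2), l ≠ Fin.last (d + 1) →
          (f l ∈ X ↔ (τ + ((l : ℕ) : ZMod (d + 2))).val < a)) := by
      constructor
      · intro h1 l hl
        obtain ⟨i, rfl⟩ := Fin.exists_castSucc_eq.2 hl
        exact h1 i
      · intro h1 i
        exact h1 (Fin.castSucc i) (Fin.castSucc_lt_last i).ne
    have hc2 : (((fun i : Fin (d + 1) => f (Fin.succ i)), τ + 1) ∈ can X d a ↔
        ∀ l : Fin (d + 2), l ≠ 0 →
          (f l ∈ X ↔ (τ + ((l : ℕ) : ZMod (d + 2))).val < a)) := by
      constructor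
      · intro h1 l hl
        obtain ⟨i, rfl⟩ := Fin.exists_succ_eq.2 hl
        have h2 := h1 i
        have h3 : τ + (((Fin.succ i : Fin (d + 2)) : ℕ) : ZMod (d + 2)) =
            τ + 1 + ((i : ℕ) : ZMod (d + 2)) := by
          rw [Fin.val_succ]
          push_cast
          ring
        rw [h3]
        exact h2
      · intro h1 i
        have h2 := h1 (Fin.succ i) (Fin.succ_ne_zero i)
        have h3 : τ + (((Fin.succ i : Fin (d + 2)) : ℕ) : ZMod (d + 2)) =
            τ + 1 + ((i : ℕ) : ZMod (d + 2)) := by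
          rw [Fin.val_succ]
          push_cast
          ring
        rw [h3] at h2
        exact h2
    rw [hc1, hc2] at h
    have key : ∃ l₀ : Fin (d + 2), ¬ (f l₀ ∈ X ↔ (τ + ((l₀ : ℕ) : ZMod (d + 2))).val < a) ∧
        ∀ l, l ≠ l₀ → (f l ∈ X ↔ (τ + ((l : ℕ) : ZMod (d + 2))).val < a) := by
      by_cases h1 : ∀ l : Fin (d + 2), l ≠ Fin.last (d + 1) →
          (f l ∈ X ↔ (τ + ((l : ℕ) : ZMod (d + 2))).val < a)
      · refine ⟨Fin.last (d + 1), ?_, h1⟩
        intro h2
        apply h
        refine ⟨fun _ l _ => ?_, fun _ => h1⟩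
        by_cases hl : l = Fin.last (d + 1)
        · rw [hl]
          exact h2
        · exact h1 l hl
      · have h3 : ∀ l : Fin (d + 2), l ≠ 0 →
            (f l ∈ X ↔ (τ + ((l : ℕ) : ZMod (d + 2))).val < a) := by
          by_contra h4
          exact h ⟨fun h5 => absurd h5 h1, fun h5 => absurd h5 h4⟩
        refine ⟨0, ?_, h3⟩
        intro h2
        apply h1
        intro l _
        by_cases hl : l = 0
        · rw [hl]
          exact h2
        · exact h3 l hl
    obtain ⟨l₀, h1, h2⟩ := key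
    have h3 := one_wrong (fun l : Fin (d + 2) => f l ∈ X)
      (fun l : Fin (d + 2) => (τ + ((l : ℕ) : ZMod (d + 2))).val < a) l₀ h1 h2
    rw [card_can d a (by omega) τ] at h3
    unfold xc
    rw [← hE]
    exact h3
  · unfold cls at h
    rw [if_neg hE] at h
    have h1 := xc_init X f
    have h2 := xc_tail X f
    simp only [Set.mem_ofPred_eq] at h
    omega

theorem clo : CloStmt := by
  intro d V _ _ H X q a b μ γ hU hγ hS i hi
  classical
  let J : Finset ℕ := (Finset.range (d + 3)).filter fun j => ∀ i' < q, ¬ (a i' ≤ j ∧ j ≤ b i')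
  let S : Finset (Fin (d + 2) → V) :=
    Finset.univ.filter fun f => Finset.univ.image f ∈ H ∧ xc X f ∈ J
  have hn0 : (0 : ℝ) ≤ (Fintype.card V : ℝ) ^ (d + 2) := by positivity
  have hScard : (S.card : ℝ) ≤ (d + 3) * (γ * (Fintype.card V : ℝ) ^ (d + 2)) := by
    have h1 : S.card = ∑ j ∈ J, (S.filter fun f => xc X f = j).card :=
      Finset.card_eq_sum_card_fiberwise fun f hf => (Finset.mem_filter.1 hf).2.2
    rw [h1]
    push_cast
    calc ∑ j ∈ J, ((S.filter fun f => xc X f = j).card : ℝ) ≤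
          ∑ j ∈ J, γ * (Fintype.card V : ℝ) ^ (d + 2) := by
          refine Finset.sum_le_sum fun j hj => ?_
          obtain ⟨hj1, hj2⟩ := Finset.mem_filter.1 hj
          have hj3 : j ≤ d + 2 := by
            have := Finset.mem_range.1 hj1
            omega
          refine le_trans ?_ (hS.miss j hj3 hj2)
          have h2 : ((S.filter fun f => xc X f = j : Finset _) : Set (Fin (d + 2) → V)) ⊆
              {f : Fin (d + 2) → V | Finset.univ.image f ∈ H ∧ xc X f = j} := by
            intro f hf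
            obtain ⟨hf1, hf2⟩ := Finset.mem_filter.1 (Finset.mem_coe.1 hf)
            exact ⟨(Finset.mem_filter.1 hf1).2.1, hf2⟩
          have h3 := Set.ncard_le_ncard h2 (Set.toFinite _)
          rw [Set.ncard_coe_finset] at h3
          exact_mod_cast h3
      _ = J.card * (γ * (Fintype.card V : ℝ) ^ (d + 2)) := by
          rw [Finset.sum_const, nsmul_eq_mul]
      _ ≤ (d + 3) * (γ * (Fintype.card V : ℝ) ^ (d + 2)) := by
          apply mul_le_mul_of_nonneg_right _ (by positivity)
          have h2 : J.card ≤ d + 3 := by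
            refine (Finset.card_filter_le _ _).trans ?_
            rw [Finset.card_range]
          exact_mod_cast h2
  let B : Set (Sta V d × Sta V d) := {p | St H p.1 p.2 ∧
    ¬ (p.1 ∈ cls X d (a i) (b i) ↔ p.2 ∈ cls X d (a i) (b i))}
  have hB : (B.ncard : ℝ) ≤ (d + 2) * (d + 3) * γ * (Fintype.card V : ℝ) ^ (d + 2) := by
    let Φ : Sta V d × Sta V d → (Fin (d + 2) → V) × ZMod (d + 2) := fun p =>
      (Fin.snoc p.1.1 (p.2.1 (Fin.last d)), p.1.2)
    have hs : ∀ p : Sta V d × Sta V d, St H p.1 p.2 →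
        p.1 = ((fun i : Fin (d + 1) => (Φ p).1 (Fin.castSucc i)), (Φ p).2) ∧
        p.2 = ((fun i : Fin (d + 1) => (Φ p).1 (Fin.succ i)), (Φ p).2 + 1) ∧
        Finset.univ.image (Φ p).1 ∈ H := by
      rintro ⟨⟨s, τ⟩, t, τ'⟩ ⟨h1, h2, h3⟩
      simp only at h1 h2 h3
      have e1 : ∀ i : Fin (d + 1),
          (Fin.snoc s (t (Fin.last d)) : Fin (d + 2) → V) (Fin.castSucc i) = s i := fun i =>
        Fin.snoc_castSucc (α := fun _ => V) _ _ _
      have e2 : (Fin.snoc s (t (Fin.last d)) : Fin (d + 2) → V) (Fin.last (d + 1)) =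
          t (Fin.last d) := Fin.snoc_last (α := fun _ => V) _ _
      refine ⟨?_, ?_, ?_⟩
      · refine Prod.ext ?_ rfl
        funext i
        exact (e1 i).symm
      · refine Prod.ext ?_ h1
        funext i
        show t i = (Fin.snoc s (t (Fin.last d)) : Fin (d + 2) → V) (Fin.succ i)
        refine Fin.lastCases ?_ (fun i => ?_) i
        · exact e2.symm
        · have h4 := congrFun h2 i
          have h5 : Fin.init t i = t (Fin.castSucc i) := rfl
          rw [← h5, h4, Fin.succ_castSucc, e1]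
          rfl
      · show Finset.univ.image (Fin.snoc s (t (Fin.last d)) : Fin (d + 2) → V) ∈ H
        have h4 : Finset.univ.image (Fin.snoc s (t (Fin.last d)) : Fin (d + 2) → V) =
            insert (t (Fin.last d)) (Finset.univ.image s) := by
          ext v
          rw [Finset.mem_insert, Finset.mem_image, Finset.mem_image]
          constructor
          · rintro ⟨l, -, hl⟩
            rcases Fin.eq_castSucc_or_eq_last l with ⟨i, rfl⟩ | rfl
            · rw [e1] at hl
              exact Or.inr ⟨i, Finset.mem_univ _, hl⟩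
            · rw [e2] at hl
              exact Or.inl hl.symm
          · rintro (hv | ⟨i, -, hi⟩)
            · exact ⟨Fin.last (d + 1), Finset.mem_univ _, by rw [e2, hv]⟩
            · exact ⟨Fin.castSucc i, Finset.mem_univ _, by rw [e1, hi]⟩
        rw [h4]
        exact h3
    have hmaps : ∀ p ∈ B, Φ p ∈ (S : Set (Fin (d + 2) → V)) ×ˢ (Set.univ : Set (ZMod (d + 2))) := by
      intro p hp
      obtain ⟨h1, h2⟩ := hp
      obtain ⟨e1, e2, e3⟩ := hs p h1
      refine ⟨?_, Set.mem_univ _⟩
      rw [e1, e2] at h2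
      have h3 := type_of X d (a i) (b i) (hS.le i hi) (b_le hS hi) (Φ p).1 (Φ p).2 h2
      refine Finset.mem_coe.2 (Finset.mem_filter.2 ⟨Finset.mem_univ _, e3, Finset.mem_filter.2
        ⟨?_, missing hS hi h3⟩⟩)
      rw [Finset.mem_range]
      have h4 : xc X (Φ p).1 ≤ d + 2 := by
        refine (Finset.card_filter_le _ _).trans ?_
        rw [Finset.card_univ, Fintype.card_fin]
      omega
    have hinj : Set.InjOn Φ B := by
      intro p hp p' hp' h
      obtain ⟨e1, e2, -⟩ := hs p hp.1
      obtain ⟨e1', e2', -⟩ := hs p' hp'.1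
      refine Prod.ext ?_ ?_
      · rw [e1, e1', h]
      · rw [e2, e2', h]
    have h1 := Set.ncard_le_ncard_of_injOn Φ hmaps hinj (Set.toFinite _)
    rw [Set.ncard_prod, Set.ncard_coe_finset, Set.ncard_univ, Nat.card_zmod] at h1
    calc (B.ncard : ℝ) ≤ ((S.card * (d + 2) : ℕ) : ℝ) := by exact_mod_cast h1
      _ = S.card * (d + 2) := by push_cast; ring
      _ ≤ (d + 3) * (γ * (Fintype.card V : ℝ) ^ (d + 2)) * (d + 2) :=
          mul_le_mul_of_nonneg_right hScard (by positivity)
      _ = _ := by ring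
  constructor
  · refine le_trans ?_ hB
    have h1 : {p : Sta V d × Sta V d | p.1 ∈ cls X d (a i) (b i) ∧ p.2 ∉ cls X d (a i) (b i) ∧
        St H p.1 p.2} ⊆ B := by
      rintro p ⟨h1, h2, h3⟩
      exact ⟨h3, fun h => h2 (h.1 h1)⟩
    exact_mod_cast Set.ncard_le_ncard h1 (Set.toFinite _)
  · refine le_trans ?_ hB
    have h1 : {p : Sta V d × Sta V d | p.1 ∉ cls X d (a i) (b i) ∧ p.2 ∈ cls X d (a i) (b i) ∧
        St H p.1 p.2} ⊆ B := by
      rintro p ⟨h1, h2, h3⟩
      exact ⟨h3, fun h => h1 (h.2 h2)⟩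
    exact_mod_cast Set.ncard_le_ncard h1 (Set.toFinite _)

end Pool.Agent.KK.H41
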