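import Pool.Agent.KK.StmtsG

/-!
# Squad KK, block G, row G_CRO (G06): crossing with a bi-coloured set
-/

set_option autoImplicit false

namespace Pool.Agent.KK.E.H41

theorem wt_take (k : ℕ) (u : List Bool) :
    wt (u.take k) = ((Finset.range k).filter fun i => u.getD i false = true).card := by
  induction k with
  | zero => simp [wt]
  | succ k ih =>
      rw [List.take_add_one, Finset.range_add_one, Finset.filter_insert]
      unfold wt at ih ⊢
      rw [List.count_append, ih, List.getD_eq_getElem?_getD]
      rcases h : u[k]? with _ | b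
      · simp
      · cases b
        · simp
        · simp

theorem wt_win (k a : ℕ) (u : List Bool) :
    wt ((u.drop a).take k) =
      ((Finset.range k).filter fun i => u.getD (a + i) false = true).card := by
  rw [wt_take]
  refine congrArg Finset.card (Finset.filter_congr fun i _ => ?_)
  rw [List.getD_eq_getElem?_getD, List.getD_eq_getElem?_getD, List.getElem?_drop]

theorem win_append {α : Type} (u v : List α) (a k : ℕ) (h : a + k ≤ u.length) :
    ((u ++ v).drop a).take k = (u.drop a).take k := by
  rw [List.drop_append_of_le_length (by omega), List.take_append_of_le_length (by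
    rw [List.length_drop]
    omega)]

/-- G06 -/
theorem g_cro (hE18 : StmtE18) (hG03 : StmtG03) (hG04 : StmtG04) : StmtG06 := by
  intro V _ _ H X M Z p q B δ h ε η θ hA hC hM hZ hMZ hMX hMY
  obtain ⟨c, hc⟩ : ∃ c : List Bool,
      c = List.replicate (q + 1) false ++ List.replicate (p + 1) true := ⟨_, rfl⟩
  have hlc : c.length = p + q + 2 := by
    rw [hc, List.length_append, List.length_replicate, List.length_replicate]
    omega
  have hwc : wt c = p + 1 := by
    rw [hc]
    unfold wt
    rw [List.count_append]
    simp [List.count_replicate]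
  have hlL : (low p q).length = p + q + 1 := by
    simp [low]
    omega
  have hlR : (high p q).length = p + q + 1 := by
    simp [high]
    omega
  have hword : word p q = low p q ++ c ++ high p q := by
    rw [hc]
    rfl
  obtain ⟨m₁, hm₁⟩ := hMY
  obtain ⟨m₂, hm₂⟩ := hMX
  rw [Finset.mem_sdiff] at hm₁
  rw [Finset.mem_inter] at hm₂
  have hne : m₁ ≠ m₂ := fun h => hm₁.2 (h ▸ hm₂.2)
  have hc0 : c.getD 0 false = false := by
    rw [hc, List.replicate_succ]
    rfl
  have hc1 : c.getD (p + q + 1) false = true := by
    rw [hc, List.getD_eq_getElem?_getD, List.getElem?_append_right (by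
      rw [List.length_replicate]
      omega), List.length_replicate, List.getElem?_replicate, if_pos (by omega)]
    rfl
  obtain ⟨o, ho1, ho2, ho3, ho4, ho5⟩ := hG04 V X M p q c m₁ m₂ hlc hwc hM.1.1 hM.1.2.1 hm₁.1 hm₂.1
    hne (by
      rw [hc0]
      exact ⟨fun h => absurd h hm₁.2, fun h => absurd h (by decide)⟩) (by
      rw [hc1]
      exact ⟨fun _ => rfl, fun _ => hm₂.2⟩)
  have hlLc : (low p q ++ c).length = p + q + 1 + (p + q + 2) := by
    rw [List.length_append, hlL, hlc]
  obtain ⟨l, hl1, hl2, -, hl4, hl5⟩ := hG03 V H X M Z p q B δ h ε η θ c (low p q) (high p q) o hA hC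
    hM hZ hMZ hlc hwc hlL hlR (by
      intro a ha
      left
      have h1 : ((low p q ++ c).drop a).take (p + q + 2) =
          ((word p q).drop a).take (p + q + 2) := by
        rw [hword]
        exact (win_append _ _ a (p + q + 2) (by rw [hlLc]; omega)).symm
      rw [h1, wt_win, (hE18 p q a (by omega)).2, if_pos ha]) (by
      intro a ha1 ha2
      right
      have h1 : ((c ++ high p q).drop a).take (p + q + 2) =
          ((word p q).drop (p + q + 1 + a)).take (p + q + 2) := by
        rw [hword, List.append_assoc, ← List.drop_drop, ← hlL, List.drop_left]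
      rw [h1, wt_win, (hE18 p q (p + q + 1 + a) (by omega)).2, if_neg (by omega),
        if_neg (by omega)]) ho3 ho4 ho5 (by rw [ho1]; exact Option.some_ne_none _)
      (by rw [ho2]; exact Option.some_ne_none _)
  exact ⟨l, hl1, hl2, by rw [hl4, hc], hl5⟩

end Pool.Agent.KK.E.H41
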