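import Pool.Agent.Helper41_KK.GCRO

/-!
# Squad KK, block G, row G_FAR (G07): far flips with a bi-coloured pair
-/

set_option autoImplicit false

namespace Pool.Agent.KK.E.H41

/-! ## Words -/

/-- windows of a periodic word -/
theorem wt_per (A : List Bool) (a : ℕ) (ha : a + 2 ≤ A.length) :
    wt (((A.tail ++ A.dropLast).drop a).take A.length) = wt A := by
  have hadd : ∀ u v : List Bool, wt (u ++ v) = wt u + wt v := fun u v => List.count_append ..
  have h1 : A.tail ++ A.dropLast = (A.drop 1) ++ A.take (A.length - 1) := by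
    rw [List.drop_one, List.dropLast_eq_take]
  rw [h1, List.drop_append_of_le_length (by rw [List.length_drop]; omega), List.drop_drop,
    List.take_append, List.take_of_length_le (by rw [List.length_drop]; omega),
    List.length_drop, List.take_take, hadd]
  have h3 : min (A.length - (A.length - (1 + a))) (A.length - 1) = a + 1 := by omega
  rw [h3]
  have h4 : wt (A.take (a + 1)) + wt (A.drop (a + 1)) = wt A := by
    rw [← hadd, List.take_append_drop]
  rw [Nat.add_comm 1 a]
  omega

theorem ofFn_getD {L : ℕ} (c : List Bool) (hc : c.length = L) :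
    List.ofFn (fun i : Fin L => c.getD i false) = c := by
  apply List.ext_getElem
  · rw [List.length_ofFn, hc]
  · intro i h1 h2
    rw [List.getElem_ofFn]
    rw [List.getD_eq_getElem?_getD]
    simp [h2]

theorem card_fin_filter (k : ℕ) (P : ℕ → Prop) [DecidablePred P] :
    (Finset.univ.filter fun i : Fin k => P i).card = ((Finset.range k).filter P).card := by
  have h : (Finset.range k).filter P =
      (Finset.univ.filter fun i : Fin k => P i).map Fin.valEmbedding := by
    ext x
    simp only [Finset.mem_filter, Finset.mem_range, Finset.mem_map, Finset.mem_univ, true_and,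
      Fin.valEmbedding_apply]
    constructor
    · rintro ⟨h1, h2⟩
      exact ⟨⟨x, h1⟩, h2, rfl⟩
    · rintro ⟨i, h1, rfl⟩
      exact ⟨i.2, h1⟩
  rw [h, Finset.card_map]

/-- **G07** -/
theorem g_far (h01 : StmtE01) (h02 : StmtE02) (h05 : StmtE05) (h20 : StmtE20) (h00 : StmtG00) :
    StmtG07 := by
  classical
  intro V _ _ H X M Z p q B δ h ε η θ m₁ m₂ hpq hA hC hM hZ hMZ hMX hMY hl hw
  -- basic numbers
  have hK1 : (1 : ℝ) ≤ ((p + q + 2 : ℕ) : ℝ) := by
    exact_mod_cast (by omega : 1 ≤ p + q + 2)
  have hnpos : 0 < (Fintype.card V : ℝ) := by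
    have h1 := hA.big
    have h2 : (0 : ℝ) < 100 * ((p + q + 2 : ℕ) : ℝ) ^ 2 * ((B + p + q + 2 : ℕ) : ℝ) := by
      have h3 : (0 : ℝ) < ((B + p + q + 2 : ℕ) : ℝ) := by exact_mod_cast (by omega)
      positivity
    have h3 : 0 < δ * (Fintype.card V : ℝ) := lt_of_lt_of_le h2 h1
    exact (pos_iff_pos_of_mul_pos h3).1 hA.pos
  have hXne : X.Nonempty := by
    rw [← Finset.card_pos]
    have h1 := hA.lo
    have h2 := hA.small
    have h3 : (0 : ℝ) < (X.card : ℝ) := by
      refine lt_of_lt_of_le ?_ h1
      have : 0 < 1 - δ := by linarith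
      positivity
    exact_mod_cast h3
  have hX'ne : (Xᶜ).Nonempty := by
    rw [← Finset.card_pos]
    have h1 := hA.lo'
    have h2 := hA.small
    have h3 : (0 : ℝ) < ((Xᶜ).card : ℝ) := by
      refine lt_of_lt_of_le ?_ h1
      have : 0 < 1 - δ := by linarith
      positivity
    exact_mod_cast h3
  have hsd : ∀ b, (sd X b).Nonempty := by
    intro b
    unfold sd
    split_ifs
    · exact hXne
    · exact hX'ne
  have hMc : M.card = 2 := by
    have h1 := Finset.card_inter_add_card_sdiff M X
    omega
  -- the two vertices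
  obtain ⟨x₀, hx₀⟩ := Finset.card_eq_one.1 hMX
  obtain ⟨y₀, hy₀⟩ := Finset.card_eq_one.1 hMY
  have hx1 : x₀ ∈ M ∩ X := by rw [hx₀]; exact Finset.mem_singleton_self _
  have hy1 : y₀ ∈ M \ X := by rw [hy₀]; exact Finset.mem_singleton_self _
  rw [Finset.mem_inter] at hx1
  rw [Finset.mem_sdiff] at hy1
  have hMmem : ∀ v, v ∈ M ↔ v = y₀ ∨ v = x₀ := by
    intro v
    constructor
    · intro hv
      by_cases h1 : v ∈ X
      · right
        have : v ∈ M ∩ X := Finset.mem_inter.2 ⟨hv, h1⟩
        rw [hx₀] at this
        exact Finset.mem_singleton.1 this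
      · left
        have : v ∈ M \ X := Finset.mem_sdiff.2 ⟨hv, h1⟩
        rw [hy₀] at this
        exact Finset.mem_singleton.1 this
    · rintro (rfl | rfl)
      · exact hy1.1
      · exact hx1.1
  have hxy : x₀ ≠ y₀ := fun h => hy1.2 (h ▸ hx1.2)
  -- constants
  have hη2 : 0 < η 2 := hC.cst.pos 2 (by omega)
  have hη1 : 0 < η 1 := hC.cst.pos 1 (by omega)
  have hη0 : 0 < η 0 := hC.cst.pos 0 (by omega)
  have hη01 : η 0 ≤ η 1 := by
    have h1 := hC.cst.step 0 (by omega)
    have h2 : (1 : ℝ) ≤ 8 * ((p + q + 2 : ℕ) : ℝ) * 4 ^ (p + q + 2) * ((B : ℝ) + 1) := by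
      have h3 : (1 : ℝ) ≤ (4 : ℝ) ^ (p + q + 2) := one_le_pow₀ (by norm_num)
      have h4 : (1 : ℝ) ≤ (B : ℝ) + 1 := by
        have : (0 : ℝ) ≤ (B : ℝ) := Nat.cast_nonneg _
        linarith
      have h5 : (1 : ℝ) ≤ 8 * ((p + q + 2 : ℕ) : ℝ) := by linarith
      exact one_le_mul_of_one_le_of_one_le (one_le_mul_of_one_le_of_one_le h5 h3) h4
    have h3 : η 0 ≤ 8 * ((p + q + 2 : ℕ) : ℝ) * 4 ^ (p + q + 2) * ((B : ℝ) + 1) * η 0 :=
      le_mul_of_one_le_left hη0.le h2
    exact h3.trans h1
  have hτ : 0 < (η 2) ^ (2 ^ (p + q + 2)) := pow_pos hη2 _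
  have hθη : θ 2 ≤ η 2 := by
    have h1 := hC.cst.tsmall 2 (by omega) (by omega)
    have h2 : η 2 ≤ 1 / 2 := hC.cst.half 2 (by omega)
    have h3 : h ≤ 1 := by
      have h4 := hC.cst.hsmall
      refine h4.trans ?_
      have h5 : (1 : ℝ) ≤ (2 : ℝ) ^ (p + q + 2) := one_le_pow₀ (by norm_num)
      have h6 : (1 : ℝ) ≤ 8 * ((p + q + 2 : ℕ) : ℝ) * 2 ^ (p + q + 2) :=
        one_le_mul_of_one_le_of_one_le (by linarith) h5
      rw [div_le_one (by linarith)]
      exact h6
    have h0 : 0 < h := hC.cst.hpos
    have h4 : η 2 * h / (16 * ((p + q + 2 : ℕ) : ℝ)) ≤ η 2 := by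
      rw [div_le_iff₀ (by linarith)]
      have h5 : η 2 * h ≤ η 2 * 1 := mul_le_mul_of_nonneg_left h3 hη2.le
      have h6 : η 2 * 1 ≤ η 2 * (16 * ((p + q + 2 : ℕ) : ℝ)) :=
        mul_le_mul_of_nonneg_left (by linarith) hη2.le
      exact h5.trans h6
    have h5 : 0 ≤ η 2 * h / (16 * ((p + q + 2 : ℕ) : ℝ)) := by positivity
    have h6 : (η 2 * h / (16 * ((p + q + 2 : ℕ) : ℝ))) ^ 3 ≤
        η 2 * h / (16 * ((p + q + 2 : ℕ) : ℝ)) :=
      pow_le_of_le_one h5 (by linarith) (by norm_num)
    linarith
  have hθ2 : 0 < θ 2 := hC.cst.tpos 2 (by omega) (by omega)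
  have hnum1 : 32 * ((p + q + 2 : ℕ) : ℝ) * η 1 ≤ ε * (η 2) ^ (2 ^ (p + q + 2)) := by
    have h1 := hC.thetaG 2 (by omega) (by omega)
    have h2 : (θ 2) ^ (2 ^ (p + q + 2)) ≤ (η 2) ^ (2 ^ (p + q + 2)) :=
      pow_le_pow_left₀ hθ2.le hθη _
    exact h1.trans (mul_le_mul_of_nonneg_left h2 hC.epos.le)
  have hnum2 : 100 * ((p + q + 2 : ℕ) : ℝ) * δ ≤ ε * (η 2) ^ (2 ^ (p + q + 2)) := by
    have h1 := hC.delG
    have h2 : ε * η 0 ≤ 1 * η 0 := mul_le_mul_of_nonneg_right hC.eone hη0.le
    have h3 : η 1 ≤ 32 * ((p + q + 2 : ℕ) : ℝ) * η 1 :=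
      le_mul_of_one_le_left hη1.le (by linarith)
    linarith
  have hnum3 : (Z.card : ℝ) ≤ (η 2) ^ (2 ^ (p + q + 2)) / (100 * ((p + q + 2 : ℕ) : ℝ)) *
      (Fintype.card V : ℝ) := by
    have h1 : δ ≤ (η 2) ^ (2 ^ (p + q + 2)) / (100 * ((p + q + 2 : ℕ) : ℝ)) := by
      rw [le_div_iff₀ (by linarith)]
      have h2 : ε * (η 2) ^ (2 ^ (p + q + 2)) ≤ 1 * (η 2) ^ (2 ^ (p + q + 2)) :=
        mul_le_mul_of_nonneg_right hC.eone hτ.le
      linarith
    have h2 := hA.big
    have h3 : (Z.card : ℝ) ≤ ((B + p + q + 2 : ℕ) : ℝ) := by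
      exact_mod_cast (by omega : Z.card ≤ B + p + q + 2)
    have h4 : ((B + p + q + 2 : ℕ) : ℝ) ≤
        100 * ((p + q + 2 : ℕ) : ℝ) ^ 2 * ((B + p + q + 2 : ℕ) : ℝ) := by
      refine le_mul_of_one_le_left (Nat.cast_nonneg _) ?_
      have h5 : (1 : ℝ) ≤ ((p + q + 2 : ℕ) : ℝ) ^ 2 := one_le_pow₀ hK1
      linarith
    have h5 : δ * (Fintype.card V : ℝ) ≤ (η 2) ^ (2 ^ (p + q + 2)) /
        (100 * ((p + q + 2 : ℕ) : ℝ)) * (Fintype.card V : ℝ) :=
      mul_le_mul_of_nonneg_right h1 hnpos.le
    linarith
  -- the word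
  obtain ⟨s, hs⟩ : ∃ s, s = m₂.length := ⟨_, rfl⟩
  obtain ⟨c, hc⟩ : ∃ c, c = m₂ ++ false :: m₁ ++ true :: m₂ := ⟨_, rfl⟩
  have hsk : s ≤ p + q := by omega
  have hcl : c.length = p + q + 2 + s := by
    rw [hc]
    simp only [List.length_append, List.length_cons]
    omega
  have hLl : (m₂ ++ false :: m₁).length = p + q + 1 := by
    rw [List.length_append, List.length_cons]
    omega
  have hc1 : c.getD s false = false := by
    rw [hc, List.append_assoc, List.getD_append_right _ _ _ _ (by omega), hs, Nat.sub_self]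
    rfl
  have hc2 : c.getD (p + q + 1) false = true := by
    rw [hc, List.getD_append_right _ _ _ _ (by omega), hLl, Nat.sub_self, List.getD_cons_zero]
  have hc3 : ∀ i, i < s → c.getD i false = m₂.getD i false := by
    intro i hi
    rw [hc, List.append_assoc, List.getD_append _ _ _ _ (by omega)]
  have hc4 : ∀ i, c.getD (p + q + 2 + i) false = m₂.getD i false := by
    intro i
    have h1 : p + q + 2 + i - (p + q + 1) = i + 1 := by omega
    rw [hc, List.getD_append_right _ _ _ _ (by omega), hLl, h1, List.getD_cons_succ]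
  -- fixed positions
  obtain ⟨o, ho⟩ : ∃ o : ℕ → Option V, o = fun i => if i = s then some y₀ else
      if i = p + q + 1 then some x₀ else none := ⟨_, rfl⟩
  have ho1 : o s = some y₀ := by rw [ho]; exact if_pos rfl
  have ho2 : o (p + q + 1) = some x₀ := by
    rw [ho]
    change (if p + q + 1 = s then some y₀ else if p + q + 1 = p + q + 1 then some x₀ else none) = _
    rw [if_neg (by omega), if_pos rfl]
  have ho3 : ∀ i, i ≠ s → i ≠ p + q + 1 → o i = none := by
    intro i h1 h2
    rw [ho]
    change (if i = s then some y₀ else if i = p + q + 1 then some x₀ else none) = _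
    rw [if_neg h1, if_neg h2]
  have ho4 : ∀ i v, o i = some v → (i = s ∧ v = y₀) ∨ (i = p + q + 1 ∧ v = x₀) := by
    intro i v hi
    by_cases h1 : i = s
    · left
      rw [h1, ho1, Option.some_inj] at hi
      exact ⟨h1, hi.symm⟩
    · by_cases h2 : i = p + q + 1
      · right
        rw [h2, ho2, Option.some_inj] at hi
        exact ⟨h2, hi.symm⟩
      · rw [ho3 i h1 h2] at hi
        exact absurd hi.symm (Option.some_ne_none _)
  -- the density of the core event
  have hcnt : (Finset.univ.filter fun i : Fin (p + q + 2) => c.getD i false = true).card =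
      p + 1 := by
    rw [card_fin_filter (p + q + 2) (fun i => c.getD i false = true), ← wt_take]
    have h1 : c.take (p + q + 2) = (m₂ ++ false :: m₁) ++ [true] := by
      rw [hc, List.take_append, hLl, List.take_of_length_le (by omega)]
      have h2 : p + q + 2 - (p + q + 1) = 1 := by omega
      rw [h2]
      rfl
    rw [h1]
    unfold wt at hw ⊢
    simp only [List.count_append, List.count_cons, List.count_nil]
    simp only [beq_self_eq_true, if_true, Bool.false_eq_true, beq_iff_eq, if_false]
    omega
  have hcardT : ((Finset.univ : Finset (Fin (p + q + 2))).filter fun i : Fin (p + q + 2) =>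
      o i = none ∧ c.getD i false = true).card = p := by
    have h1 : (Finset.univ.filter fun i : Fin (p + q + 2) => c.getD i false = true) =
        insert (Fin.last (p + q + 1)) (Finset.univ.filter fun i : Fin (p + q + 2) =>
          o i = none ∧ c.getD i false = true) := by
      ext i
      simp only [Finset.mem_filter, Finset.mem_univ, true_and, Finset.mem_insert]
      constructor
      · intro h2
        by_cases h3 : (i : ℕ) = p + q + 1
        · left
          exact Fin.ext h3
        · right
          refine ⟨ho3 _ ?_ h3, h2⟩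
          intro h4
          rw [h4, hc1] at h2
          exact absurd h2 (by decide)
      · rintro (rfl | ⟨-, h2⟩)
        · exact hc2
        · exact h2
    rw [h1, Finset.card_insert_of_notMem] at hcnt
    · omega
    · intro h2
      have h3 := (Finset.mem_filter.1 h2).2.1
      change o (p + q + 1) = none at h3
      rw [ho2] at h3
      exact absurd h3 (Option.some_ne_none _)
  have hcntF : (Finset.univ.filter fun i : Fin (p + q + 2) => c.getD i false = false).card =
      q + 1 := by
    have h1 := Finset.card_filter_add_card_filter_not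
      (s := (Finset.univ : Finset (Fin (p + q + 2)))) (fun i => c.getD i false = true)
    rw [hcnt, Finset.card_univ, Fintype.card_fin] at h1
    have h2 : (Finset.univ.filter fun i : Fin (p + q + 2) => ¬ c.getD i false = true) =
        Finset.univ.filter fun i : Fin (p + q + 2) => c.getD i false = false := by
      ext i
      simp
    rw [h2] at h1
    omega
  have hcardF : ((Finset.univ : Finset (Fin (p + q + 2))).filter fun i : Fin (p + q + 2) =>
      o i = none ∧ c.getD i false = false).card = q := by
    have h1 : (Finset.univ.filter fun i : Fin (p + q + 2) => c.getD i false = false) =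
        insert ⟨s, by omega⟩ (Finset.univ.filter fun i : Fin (p + q + 2) =>
          o i = none ∧ c.getD i false = false) := by
      ext i
      simp only [Finset.mem_filter, Finset.mem_univ, true_and, Finset.mem_insert]
      constructor
      · intro h2
        by_cases h3 : (i : ℕ) = s
        · left
          exact Fin.ext h3
        · right
          refine ⟨ho3 _ h3 ?_, h2⟩
          intro h4
          rw [h4, hc2] at h2
          exact absurd h2 (by decide)
      · rintro (rfl | ⟨-, h2⟩)
        · exact hc1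
        · exact h2
    rw [h1, Finset.card_insert_of_notMem] at hcntF
    · omega
    · intro h2
      have h3 := (Finset.mem_filter.1 h2).2.1
      change o s = none at h3
      rw [ho1] at h3
      exact absurd h3 (Option.some_ne_none _)
  have hbk : ∀ i : Fin (p + q + 2), (bx X (fun i : Fin (p + q + 2) => c.getD i false)
      (fun i => o i) i).Nonempty := by
    intro i
    unfold bx
    simp only
    rcases o i with _ | v
    · exact hsd _
    · exact ⟨v, by simp⟩
  have hD : η 2 ≤ dens (bx X (fun i : Fin (p + q + 2) => c.getD i false) (fun i => o i))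
      (fun f => Finset.univ.image f ∈ H) := by
    have h1 := h05 V (Fin (p + q + 2)) H X M (fun i : Fin (p + q + 2) => c.getD i false)
      (fun i => o i) Finset.univ p q hXne hX'ne (by
        intro v
        rw [hMmem]
        constructor
        · rintro (rfl | rfl)
          · exact ⟨⟨s, by omega⟩, Finset.mem_univ _, ho1⟩
          · exact ⟨Fin.last _, Finset.mem_univ _, ho2⟩
        · rintro ⟨i, -, hi⟩
          rcases ho4 _ _ hi with h1 | h1
          · exact Or.inl h1.2
          · exact Or.inr h1.2) hcardT hcardF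
    rw [h1]
    have h2 := hM.1.2.2
    rw [hMc, hMX, hMY] at h2
    exact h2.le
  have h20' := h20 V (Fin (p + q + 2)) (bx X (fun i : Fin (p + q + 2) => c.getD i false)
    (fun i => o i)) (fun f => Finset.univ.image f ∈ H) (η 2) hbk hη2.le hD
  rw [Fintype.card_fin] at h20'
  -- the event
  obtain ⟨P, hP⟩ : ∃ P : (Fin (p + q + 2 + s) → V) → Prop, P = fun f => ∀ a, p + q + 1 ≤ a →
      a ≤ p + q + 1 + s →
      (Finset.univ.filter fun i : Fin (p + q + 2 + s) => a ≤ (i : ℕ) + (p + q + 1) ∧
        (i : ℕ) + (p + q + 1) < a + (p + q + 2)).image f ∈ H := ⟨_, rfl⟩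
  obtain ⟨φ, hφ⟩ : ∃ φ : Fin (p + q + 2 + s) → Fin (p + q + 2) × Bool,
      φ = fun i : Fin (p + q + 2 + s) => ((⟨(i : ℕ) % (p + q + 2), Nat.mod_lt _ (by omega)⟩ :
        Fin (p + q + 2)), decide (p + q + 2 ≤ (i : ℕ))) := ⟨_, rfl⟩
  have hφ1 : ∀ i : Fin (p + q + 2 + s), (i : ℕ) < p + q + 2 →
      (((φ i).1 : Fin _) : ℕ) = i ∧ (φ i).2 = false := by
    intro i hi
    rw [hφ]
    exact ⟨Nat.mod_eq_of_lt hi, decide_eq_false (by omega)⟩
  have hφ2 : ∀ i : Fin (p + q + 2 + s), p + q + 2 ≤ (i : ℕ) →
      (((φ i).1 : Fin _) : ℕ) = i - (p + q + 2) ∧ (φ i).2 = true := by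
    intro i hi
    have hi2 := i.2
    rw [hφ]
    refine ⟨?_, decide_eq_true hi⟩
    change (i : ℕ) % (p + q + 2) = _
    rw [Nat.mod_eq_sub_mod hi, Nat.mod_eq_of_lt (by omega)]
  have hφI : Function.Injective φ := by
    intro i j hij
    apply Fin.ext
    have h1 : (((φ i).1 : Fin (p + q + 2)) : ℕ) = (((φ j).1 : Fin (p + q + 2)) : ℕ) :=
      congrArg (fun z : Fin (p + q + 2) × Bool => ((z.1 : Fin (p + q + 2)) : ℕ)) hij
    have h2 := congrArg Prod.snd hij
    rcases Nat.lt_or_ge (i : ℕ) (p + q + 2) with hi | hi <;>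
      rcases Nat.lt_or_ge (j : ℕ) (p + q + 2) with hj | hj
    · rw [(hφ1 i hi).1, (hφ1 j hj).1] at h1
      exact h1
    · rw [(hφ1 i hi).2, (hφ2 j hj).2] at h2
      exact absurd h2 (by decide)
    · rw [(hφ2 i hi).2, (hφ1 j hj).2] at h2
      exact absurd h2 (by decide)
    · rw [(hφ2 i hi).1, (hφ2 j hj).1] at h1
      omega
  have hbox : (fun z : Fin (p + q + 2) × Bool => bx X (fun i : Fin (p + q + 2) => c.getD i false)
      (fun i => o i) z.1) ∘ φ = bx X (fun i : Fin (p + q + 2 + s) => c.getD i false)
      (fun i => o i) := by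
    funext i
    change (o (((φ i).1 : Fin _) : ℕ)).elim (sd X (c.getD (((φ i).1 : Fin _) : ℕ) false)) _ =
      (o (i : ℕ)).elim (sd X (c.getD (i : ℕ) false)) _
    rcases Nat.lt_or_ge (i : ℕ) (p + q + 2) with hi | hi
    · rw [(hφ1 i hi).1]
    · have hi2 := i.2
      rw [(hφ2 i hi).1, ho3 (i - (p + q + 2)) (by omega) (by omega),
        ho3 i (by omega) (by omega), hc3 _ (by omega)]
      have h1 := hc4 ((i : ℕ) - (p + q + 2))
      have h2 : p + q + 2 + ((i : ℕ) - (p + q + 2)) = i := by omega
      rw [h2] at h1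
      rw [h1]
  have hbig : ∀ z : Fin (p + q + 2) × Bool, ((fun z : Fin (p + q + 2) × Bool =>
      bx X (fun i : Fin (p + q + 2) => c.getD i false) (fun i => o i) z.1) z).Nonempty :=
    fun z => hbk z.1
  have hdens : (η 2) ^ (2 ^ (p + q + 2)) ≤
      dens (bx X (fun i : Fin (p + q + 2 + s) => c.getD i false) (fun i => o i)) P := by
    refine h20'.trans ?_
    rw [← hbox, ← h02 V (Fin (p + q + 2) × Bool) (Fin (p + q + 2 + s)) _ φ hbig hφI P]
    refine (h01 V (Fin (p + q + 2) × Bool) _ hbig).2.1 _ _ ?_
    intro g _ hg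
    rw [hP]
    intro a ha1 ha2
    obtain ⟨b, hb⟩ : ∃ b, a = p + q + 1 + b := ⟨a - (p + q + 1), by omega⟩
    have h1 := hg (fun j => decide ((j : ℕ) < b))
    have h2 : (Finset.univ.filter fun i : Fin (p + q + 2 + s) => a ≤ (i : ℕ) + (p + q + 1) ∧
        (i : ℕ) + (p + q + 1) < a + (p + q + 2)).image (g ∘ φ) =
        Finset.univ.image fun j : Fin (p + q + 2) => g (j, decide ((j : ℕ) < b)) := by
      ext v
      simp only [Finset.mem_image, Finset.mem_filter, Finset.mem_univ, true_and,
        Function.comp_apply]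
      constructor
      · rintro ⟨i, ⟨hi1, hi2⟩, rfl⟩
        refine ⟨(φ i).1, congrArg g (Prod.ext rfl ?_)⟩
        rcases Nat.lt_or_ge (i : ℕ) (p + q + 2) with hi | hi
        · rw [(hφ1 i hi).1, (hφ1 i hi).2]
          exact decide_eq_false (by omega)
        · rw [(hφ2 i hi).1, (hφ2 i hi).2]
          exact decide_eq_true (by omega)
      · rintro ⟨j, rfl⟩
        have hj := j.2
        by_cases hjb : (j : ℕ) < b
        · refine ⟨⟨p + q + 2 + j, by omega⟩, ⟨by simp only; omega, by simp only; omega⟩, ?_⟩
          have h3 := hφ2 ⟨p + q + 2 + j, by omega⟩ (by simp only; omega)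
          refine congrArg g (Prod.ext (Fin.ext ?_) ?_)
          · rw [h3.1]
            simp only
            omega
          · rw [h3.2]
            exact (decide_eq_true hjb).symm
        · refine ⟨⟨j, by omega⟩, ⟨by simp only; omega, by simp only; omega⟩, ?_⟩
          have h3 := hφ1 ⟨j, by omega⟩ (by simp only; omega)
          refine congrArg g (Prod.ext (Fin.ext ?_) ?_)
          · rw [h3.1]
          · rw [h3.2]
            exact (decide_eq_false hjb).symm
    rw [h2]
    exact h1
  -- letters of the neighbours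
  have hfull1 : (m₂ ++ false :: m₁ ++ [false]).length = p + q + 2 := by
    rw [List.length_append, hLl]
    rfl
  have hfull2 : (true :: m₁ ++ true :: m₂).length = p + q + 2 := by
    simp only [List.cons_append, List.length_cons, List.length_append]
    omega
  have hwA : wt (m₂ ++ false :: m₁ ++ [false]) = p := by
    have h1 : wt (m₂ ++ false :: m₁ ++ [false]) = wt m₁ + wt m₂ := by
      unfold wt
      simp
      omega
    rw [h1, hw]
  have hwB : wt (true :: m₁ ++ true :: m₂) = p + 2 := by
    have h1 : wt (true :: m₁ ++ true :: m₂) = wt m₁ + wt m₂ + 2 := by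
      unfold wt
      simp
      omega
    rw [h1, hw]
  have hres := h00 V H X Z p q B (p + q + 2 + s) δ ε ((η 2) ^ (2 ^ (p + q + 2))) (η 1) η c
    (m₂ ++ false :: m₁ ++ [false]).tail (true :: m₁ ++ true :: m₂).dropLast
    (fun i => o i) P hA hC.epos hC.eone hτ hη1.le hcl (by omega)
    (by rw [List.length_tail, hfull1]; omega) (by rw [List.length_dropLast, hfull2]; omega)
    (by
      intro i i' v hi hi'
      rcases ho4 _ _ hi with h1 | h1 <;> rcases ho4 _ _ hi' with h2 | h2
      · exact Fin.ext (h1.1.trans h2.1.symm)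
      · exact absurd (h2.2.symm.trans h1.2) hxy
      · exact absurd (h1.2.symm.trans h2.2) hxy
      · exact Fin.ext (h1.1.trans h2.1.symm))
    (by
      intro i v hi
      have h3 : v ∈ M := by
        rw [hMmem]
        rcases ho4 _ _ hi with h1 | h1
        · exact Or.inl h1.2
        · exact Or.inr h1.2
      exact Finset.disjoint_left.1 hMZ h3)
    hdens
    (by
      intro a ha
      by_cases hcore : p + q + 1 ≤ a ∧ a ≤ p + q + 1 + s
      · left
        refine ⟨hcore.1, by omega, fun f _ hPf => ?_⟩
        rw [hP] at hPf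
        exact hPf a hcore.1 hcore.2
      · right
        refine ⟨?_, ?_, ?_⟩
        · rcases Nat.lt_or_ge a (p + q + 1) with h1 | h1
          · left
            have h2 : ((((m₂ ++ false :: m₁ ++ [false]).tail ++ c ++
                (true :: m₁ ++ true :: m₂).dropLast).drop a).take (p + q + 2)) =
                (((m₂ ++ false :: m₁ ++ [false]).tail ++
                  (m₂ ++ false :: m₁ ++ [false]).dropLast).drop a).take
                  (m₂ ++ false :: m₁ ++ [false]).length := by
              rw [hfull1, List.dropLast_concat, hc]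
              have e1 : (m₂ ++ false :: m₁ ++ [false]).tail ++
                  (m₂ ++ false :: m₁ ++ true :: m₂) ++
                  (true :: m₁ ++ true :: m₂).dropLast =
                  ((m₂ ++ false :: m₁ ++ [false]).tail ++ (m₂ ++ false :: m₁)) ++
                  (true :: m₂ ++ (true :: m₁ ++ true :: m₂).dropLast) := by
                simp only [List.append_assoc]
              have e2 : ((m₂ ++ false :: m₁ ++ [false]).tail ++ (m₂ ++ false :: m₁)).length =
                  2 * p + 2 * q + 2 := by
                rw [List.length_append, List.length_tail, hfull1, hLl]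
                omega
              rw [e1]
              exact win_append _ _ a (p + q + 2) (by rw [e2]; omega)
            rw [h2, wt_per _ a (by rw [hfull1]; omega), hwA]
          · right
            have h3 : p + q + 2 + s ≤ a := by
              by_contra hcon
              exact hcore ⟨h1, by omega⟩
            obtain ⟨b, hb⟩ : ∃ b, a = p + q + 2 + s + b := ⟨a - (p + q + 2 + s), by omega⟩
            have e1 : (m₂ ++ false :: m₁ ++ [false]).tail ++ c ++
                (true :: m₁ ++ true :: m₂).dropLast =
                ((m₂ ++ false :: m₁ ++ [false]).tail ++ m₂ ++ [false]) ++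
                  ((true :: m₁ ++ true :: m₂).tail ++
                  (true :: m₁ ++ true :: m₂).dropLast) := by
              rw [hc]
              simp only [List.append_assoc, List.cons_append, List.tail_cons, List.nil_append]
            have e2 : ((m₂ ++ false :: m₁ ++ [false]).tail ++ m₂ ++ [false]).length =
                p + q + 2 + s := by
              rw [List.length_append, List.length_append, List.length_tail, hfull1]
              simp only [List.length_cons, List.length_nil]
              omega
            have h2 : ((((m₂ ++ false :: m₁ ++ [false]).tail ++ c ++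
                (true :: m₁ ++ true :: m₂).dropLast).drop a).take (p + q + 2)) =
                (((true :: m₁ ++ true :: m₂).tail ++
                  (true :: m₁ ++ true :: m₂).dropLast).drop b).take
                  (true :: m₁ ++ true :: m₂).length := by
              rw [e1, hb, ← e2, List.drop_length_add_append, hfull2]
            rw [h2, wt_per _ b (by rw [hfull2]; omega), hwB]
        · intro i v _ _ hi
          rcases ho4 _ _ hi with ⟨h1, h2⟩ | ⟨h1, h2⟩
          · rw [h1, h2, hc1]
            exact ⟨fun h => absurd h hy1.2, fun h => absurd h (by decide)⟩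
          · rw [h1, h2, hc2]
            exact ⟨fun _ => rfl, fun _ => hx1.2⟩
        · intro M' hM'
          have hsub : M' ⊆ M := by
            intro v hv
            obtain ⟨i, -, -, hi⟩ := (hM' v).1 hv
            rw [hMmem]
            rcases ho4 _ _ hi with h1 | h1
            · exact Or.inl h1.2
            · exact Or.inr h1.2
          have hne : M' ≠ M := by
            intro hEq
            rcases Nat.lt_or_ge a (p + q + 1) with h1 | h1
            · have h2 : x₀ ∈ M' := by rw [hEq]; exact hx1.1
              obtain ⟨i, hi1, hi2, hi3⟩ := (hM' x₀).1 h2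
              rcases ho4 _ _ hi3 with ⟨h4, h5⟩ | ⟨h4, h5⟩
              · exact hxy h5
              · omega
            · have h2 : y₀ ∈ M' := by rw [hEq]; exact hy1.1
              obtain ⟨i, hi1, hi2, hi3⟩ := (hM' y₀).1 h2
              rcases ho4 _ _ hi3 with ⟨h4, h5⟩ | ⟨h4, h5⟩
              · exact hcore ⟨h1, by omega⟩
              · exact hxy h5.symm
          have hss : M' ⊂ M := Finset.ssubset_iff_subset_ne.2 ⟨hsub, hne⟩
          have hcard := Finset.card_lt_card hss
          rw [hMc] at hcard
          refine ⟨hM.2 M' hss, ?_, ?_, ?_⟩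
          · have h1 := Finset.card_le_card (Finset.inter_subset_inter_right (u := X) hsub)
            omega
          · have h1 := Finset.card_le_card (Finset.sdiff_subset_sdiff hsub (subset_refl X))
            omega
          · have h1 : M'.card = 0 ∨ M'.card = 1 := by omega
            rcases h1 with h1 | h1
            · rw [h1]
              exact hη01
            · rw [h1])
    hnum3 hnum1 hnum2
  obtain ⟨f, f1, f2, f3, f4, -, f6⟩ := hres
  refine ⟨List.ofFn f, List.nodup_ofFn.2 f1, ?_, ?_, f6⟩
  · intro v hv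
    obtain ⟨i, rfl⟩ := (List.mem_ofFn' _ _).1 hv
    exact f2 i
  · rw [← hc, List.map_ofFn]
    conv_rhs => rw [← ofFn_getD c hcl]
    congr 1
    funext i
    change decide (f i ∈ X) = c.getD i false
    have key : f i ∈ X ↔ c.getD i false = true := by
      rcases hoi : o i with _ | v
      · exact f4 i hoi
      · rw [f3 i v hoi]
        rcases ho4 _ _ hoi with ⟨h1, h2⟩ | ⟨h1, h2⟩
        · rw [h1, h2, hc1]
          exact ⟨fun h => absurd h hy1.2, fun h => absurd h (by decide)⟩
        · rw [h1, h2, hc2]
          exact ⟨fun _ => rfl, fun _ => hx1.2⟩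
    by_cases hfi : f i ∈ X
    · rw [decide_eq_true hfi, key.1 hfi]
    · rw [decide_eq_false hfi]
      cases hci : c.getD i false
      · rfl
      · exact absurd (key.2 hci) hfi

end Pool.Agent.KK.E.H41
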